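import Mathlib

/-!
# Pairs of rank functions: deletion, contraction and the alternating sum
-/

namespace Pool.Agent.H.MP_321d0a_co

open Finset

variable {α : Type*} [DecidableEq α]

/-- Matroid rank functions on all finite subsets. -/
structure IsRk (r : Finset α → ℤ) : Prop where
  empty : r ∅ = 0
  mono : ∀ X Y, X ⊆ Y → r X ≤ r Y
  unit : ∀ X e, r (insert e X) ≤ r X + 1
  submod : ∀ X Y, r (X ∪ Y) + r (X ∩ Y) ≤ r X + r Y

/-- A perspective, in terms of rank functions. -/
structure Persp (r r' : Finset α → ℤ) : Prop where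
  rk : IsRk r
  rk' : IsRk r'
  le : ∀ X Y, X ⊆ Y → r' Y - r' X ≤ r Y - r X

/-- Contraction of one element. -/
def con (r : Finset α → ℤ) (e : α) : Finset α → ℤ := fun X => r (insert e X) - r {e}

/-- The sign `(-1)^n`. -/
def sg (n : ℤ) : ℤ := ((Int.negOnePow n : ℤˣ) : ℤ)

lemma sg_add (m n : ℤ) : sg (m + n) = sg m * sg n := by
  simp [sg, Int.negOnePow_add]

lemma sg_one : sg 1 = -1 := by simp [sg]

lemma sg_zero : sg 0 = 1 := by simp [sg]

lemma sg_succ (m : ℤ) : sg (m + 1) = -sg m := by
  rw [sg_add, sg_one]; ring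

lemma sg_two_mul (k : ℤ) : sg (2 * k) = 1 := by
  simp [sg, Int.negOnePow_even]

lemma sg_eq {m n : ℤ} (k : ℤ) (h : m = n + 2 * k) : sg m = sg n := by
  rw [h, sg_add, sg_two_mul, mul_one]

lemma sg_neg_eq {m n : ℤ} (k : ℤ) (h : m = n + 2 * k + 1) : sg m = -sg n := by
  rw [h, sg_succ, sg_add, sg_two_mul, mul_one]

/-- The perspective Tutte polynomial at `(0,0,1)`. -/
def T (E : Finset α) (r r' : Finset α → ℤ) : ℤ :=
  ∑ X ∈ E.powerset, sg (r' E + r' X + X.card + r X)

lemma IsRk.sub_union {r : Finset α → ℤ} (h : IsRk r) (X Y : Finset α) :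
    r (X ∪ Y) ≤ r X + r Y := by
  have h1 := h.submod X Y
  have h2 := h.mono ∅ (X ∩ Y) (Finset.empty_subset _)
  rw [h.empty] at h2
  linarith

lemma IsRk.nonneg {r : Finset α → ℤ} (h : IsRk r) (X : Finset α) : 0 ≤ r X := by
  have h2 := h.mono ∅ X (Finset.empty_subset _)
  rwa [h.empty] at h2

lemma IsRk.singleton_le {r : Finset α → ℤ} (h : IsRk r) (e : α) : r {e} ≤ 1 := by
  have h2 := h.unit ∅ e
  rw [h.empty] at h2
  simpa using h2

/-- Submodularity with free choice of the union and the intersection. -/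
lemma IsRk.sm {r : Finset α → ℤ} (h : IsRk r) {U I : Finset α} (A B : Finset α)
    (hU : U = A ∪ B) (hI : I = A ∩ B) : r U + r I ≤ r A + r B := by
  subst hU; subst hI; exact h.submod A B

/-- Subadditivity with free choice of the union. -/
lemma IsRk.su {r : Finset α → ℤ} (h : IsRk r) {U : Finset α} (A B : Finset α)
    (hU : U = A ∪ B) : r U ≤ r A + r B := by
  subst hU; exact h.sub_union A B

/-- Monotonicity of the difference. -/
lemma Persp.d_mono {r r' : Finset α → ℤ} (h : Persp r r') {X Y : Finset α} (hXY : X ⊆ Y) :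
    r X - r' X ≤ r Y - r' Y := by
  have := h.le X Y hXY
  linarith

lemma Persp.d_nonneg {r r' : Finset α → ℤ} (h : Persp r r') (X : Finset α) :
    0 ≤ r X - r' X := by
  have := h.le ∅ X (Finset.empty_subset _)
  rw [h.rk.empty, h.rk'.empty] at this
  linarith

lemma IsRk.con {r : Finset α → ℤ} (h : IsRk r) (e : α) : IsRk (con r e) where
  empty := by simp [MP_321d0a_co.con]
  mono X Y hXY := by
    have := h.mono (insert e X) (insert e Y) (Finset.insert_subset_insert _ hXY)
    simp only [MP_321d0a_co.con]; linarith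
  unit X a := by
    have := h.unit (insert e X) a
    have h2 : insert e (insert a X) = insert a (insert e X) := by grind
    simp only [MP_321d0a_co.con, h2]; linarith
  submod X Y := by
    have := h.sm (U := insert e (X ∪ Y)) (I := insert e (X ∩ Y)) (insert e X) (insert e Y)
      (by grind) (by grind)
    simp only [MP_321d0a_co.con]; linarith

lemma Persp.con {r r' : Finset α → ℤ} (h : Persp r r') (e : α) :
    Persp (con r e) (con r' e) where
  rk := h.rk.con e
  rk' := h.rk'.con e
  le X Y hXY := by
    have := h.le (insert e X) (insert e Y) (Finset.insert_subset_insert _ hXY)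
    simp only [MP_321d0a_co.con]; linarith

lemma sum_powerset_erase {E : Finset α} {e : α} (he : e ∈ E) (f : Finset α → ℤ) :
    ∑ X ∈ E.powerset, f X =
      ∑ X ∈ (E.erase e).powerset, f X + ∑ X ∈ (E.erase e).powerset, f (insert e X) := by
  conv_lhs => rw [← Finset.insert_erase he]
  exact Finset.sum_powerset_insert (Finset.notMem_erase e E) f

lemma T_delcon {E : Finset α} {r r' : Finset α → ℤ} {e : α} (he : e ∈ E)
    (h1 : r' (E.erase e) = r' E) (h2 : r {e} = 1) :
    T E r r' = T (E.erase e) r r' + T (E.erase e) (con r e) (con r' e) := by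
  unfold T
  rw [sum_powerset_erase he]
  congr 1
  · rw [h1]
  · refine Finset.sum_congr rfl fun X hX => ?_
    have hX' : e ∉ X := fun h => Finset.notMem_erase e E (Finset.mem_powerset.1 hX h)
    rw [Finset.card_insert_of_notMem hX']
    have h3 : insert e (E.erase e) = E := Finset.insert_erase he
    simp only [con, h3, h2]
    apply sg_eq (r' {e} + 1)
    push_cast
    ring

lemma T_zero_of_loop {E : Finset α} {r r' : Finset α → ℤ} (hP : Persp r r') {e : α} (he : e ∈ E)
    (h : r {e} = 0) : T E r r' = 0 := by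
  have h' : r' {e} = 0 := by
    have h1 := hP.d_nonneg {e}
    have h2 := hP.rk'.nonneg {e}
    linarith
  unfold T
  rw [sum_powerset_erase he, ← Finset.sum_add_distrib]
  refine Finset.sum_eq_zero fun X hX => ?_
  have hX' : e ∉ X := fun h => Finset.notMem_erase e E (Finset.mem_powerset.1 hX h)
  rw [Finset.card_insert_of_notMem hX']
  have e1 : r (insert e X) = r X := by
    have a1 := hP.rk.su (U := insert e X) {e} X (by grind)
    have a2 := hP.rk.mono X (insert e X) (by grind)
    linarith
  have e2 : r' (insert e X) = r' X := by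
    have a1 := hP.rk'.su (U := insert e X) {e} X (by grind)
    have a2 := hP.rk'.mono X (insert e X) (by grind)
    linarith
  rw [e1, e2]
  have : sg (r' E + r' X + ((X.card + 1 : ℕ) : ℤ) + r X) = -sg (r' E + r' X + X.card + r X) := by
    apply sg_neg_eq 0
    push_cast; ring
  rw [this]; ring

lemma T_zero_of_coloop {E : Finset α} {r r' : Finset α → ℤ} (hP : Persp r r') {e : α} (he : e ∈ E)
    (h : r' (E.erase e) = r' E - 1) : T E r r' = 0 := by
  unfold T
  rw [sum_powerset_erase he, ← Finset.sum_add_distrib]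
  refine Finset.sum_eq_zero fun X hX => ?_
  have hXE : X ⊆ E.erase e := Finset.mem_powerset.1 hX
  have hX' : e ∉ X := fun h => Finset.notMem_erase e E (hXE h)
  rw [Finset.card_insert_of_notMem hX']
  have e2 : r' (insert e X) = r' X + 1 := by
    have a1 := hP.rk'.sm (U := E) (I := X) (insert e X) (E.erase e) (by grind) (by grind)
    have a2 := hP.rk'.unit X e
    linarith
  have e1 : r (insert e X) = r X + 1 := by
    have a1 := hP.le X (insert e X) (by grind)
    have a2 := hP.rk.unit X e
    linarith
  rw [e1, e2]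
  have : sg (r' E + (r' X + 1) + ((X.card + 1 : ℕ) : ℤ) + (r X + 1)) =
      -sg (r' E + r' X + X.card + r X) := by
    apply sg_neg_eq 1
    push_cast; ring
  rw [this]; ring

lemma T_zero_of_eq {E : Finset α} {r r' : Finset α → ℤ} (hP : Persp r r') (hE : E.Nonempty)
    (h : r E = r' E) : T E r r' = 0 := by
  obtain ⟨e, he⟩ := hE
  have hd : ∀ X, X ⊆ E → r X = r' X := by
    intro X hX
    have a1 := hP.d_mono hX
    have a2 := hP.d_nonneg X
    linarith
  unfold T
  rw [sum_powerset_erase he, ← Finset.sum_add_distrib]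
  refine Finset.sum_eq_zero fun X hX => ?_
  have hXE : X ⊆ E.erase e := Finset.mem_powerset.1 hX
  have hX' : e ∉ X := fun h => Finset.notMem_erase e E (hXE h)
  rw [Finset.card_insert_of_notMem hX', hd X (by grind), hd (insert e X) (by grind)]
  have : sg (r' E + r' (insert e X) + ((X.card + 1 : ℕ) : ℤ) + r' (insert e X)) =
      -sg (r' E + r' X + X.card + r' X) := by
    apply sg_neg_eq (r' (insert e X) - r' X)
    push_cast; ring
  rw [this]; ring

lemma T_empty {r r' : Finset α → ℤ} (hP : Persp r r') : T ∅ r r' = 1 := by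
  unfold T
  simp [hP.rk.empty, hP.rk'.empty, sg_zero]

omit [DecidableEq α] in
/-- `T` only depends on the values on subsets. -/
lemma T_congr {E : Finset α} {r r' s s' : Finset α → ℤ} (h : ∀ X, X ⊆ E → r X = s X)
    (h' : ∀ X, X ⊆ E → r' X = s' X) : T E r r' = T E s s' := by
  unfold T
  refine Finset.sum_congr rfl fun X hX => ?_
  have hXE : X ⊆ E := Finset.mem_powerset.1 hX
  rw [h X hXE, h' X hXE, h' E subset_rfl]

/-- `A` is a separator of the matroid on `E` with rank function `r`. -/
lemma sep_rank {r : Finset α → ℤ} (h : IsRk r) {E A : Finset α} (hA : A ⊆ E)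
    (hs : r A + r (E \ A) = r E) {X : Finset α} (hX : X ⊆ E) :
    r X = r (X ∩ A) + r (X \ A) := by
  have h1 := h.submod X A
  have h2 := h.sm (U := E) (I := X \ A) (X ∪ A) (E \ A) (by grind) (by grind)
  have h3 := h.su (U := X) (X ∩ A) (X \ A) (by grind)
  linarith

lemma T_mul {r r' : Finset α → ℤ} (h : IsRk r) (h' : IsRk r') {E A : Finset α} (hA : A ⊆ E)
    (hs : r A + r (E \ A) = r E) (hs' : r' A + r' (E \ A) = r' E) :
    T E r r' = T A r r' * T (E \ A) r r' := by
  unfold T
  rw [Finset.sum_mul_sum]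
  rw [← Finset.sum_product']
  symm
  refine Finset.sum_bij' (fun p _ => p.1 ∪ p.2) (fun X _ => (X ∩ A, X \ A)) ?_ ?_ ?_ ?_ ?_
  · intro p hp
    simp only [Finset.mem_product, Finset.mem_powerset] at hp ⊢
    grind
  · intro X hX
    simp only [Finset.mem_product, Finset.mem_powerset] at hX ⊢
    grind
  · intro p hp
    simp only [Finset.mem_product, Finset.mem_powerset] at hp
    refine Prod.ext ?_ ?_ <;> simp only <;> grind
  · intro X hX
    simp only [Finset.mem_powerset] at hX
    grind
  · intro p hp
    simp only [Finset.mem_product, Finset.mem_powerset] at hp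
    have hsub : p.1 ∪ p.2 ⊆ E := by grind
    have e1 := sep_rank h hA hs hsub
    have e2 := sep_rank h' hA hs' hsub
    have e3 : (p.1 ∪ p.2) ∩ A = p.1 := by grind
    have e4 : (p.1 ∪ p.2) \ A = p.2 := by grind
    rw [e3, e4] at e1 e2
    have hd : Disjoint p.1 p.2 := by
      rw [Finset.disjoint_left]; grind
    rw [← sg_add, e1, e2, Finset.card_union_of_disjoint hd, ← hs']
    congr 1
    push_cast
    ring

end Pool.Agent.H.MP_321d0a_co
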