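import Pool.Agent.H.MP_321d0a_co.ClaimV

/-!
# The lower bound
-/

namespace Pool.Agent.H.MP_321d0a_co

open Finset

variable {α : Type*} [DecidableEq α]

/-- Splitting off a factor. -/
lemma Fac.T_mul {E A : Finset α} {r r' : Finset α → ℤ} (hP : Persp r r') (h : Fac E r r' A) :
    T E r r' = T A r r' * T (E \ A) r r' :=
  MP_321d0a_co.T_mul hP.rk hP.rk' h.sub h.sep h.sep'

/-- The bound for perspectives with no zero factor, from the bound for connected ones. -/
lemma lem5 {N : ℕ}
    (hB : ∀ (E : Finset α) (r r' : Finset α → ℤ) (k : ℕ), E.card < N → Persp r r' →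
      Conn E r r' → r E - r' E = k → (2 : ℤ) ^ (k + 1) - 2 ≤ T E r r') :
    ∀ (n : ℕ) (E : Finset α) (r r' : Finset α → ℤ) (k : ℕ), E.card = n → n < N → Persp r r' →
      NoZero E r r' → r E - r' E = k → (2 : ℤ) ^ k ≤ T E r r' := by
  intro n
  induction n using Nat.strong_induction_on with
  | _ n ih =>
  intro E r r' k hEn hnN hP hz hk
  rcases E.eq_empty_or_nonempty with hE | hE
  · subst hE
    rw [T_empty hP]
    rw [hP.rk.empty, hP.rk'.empty] at hk
    have : k = 0 := by omega
    subst this
    simp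
  by_cases hc : Conn E r r'
  · have h1 := hB E r r' k (by omega) hP hc hk
    have h2 : r E ≠ r' E := hz E ⟨subset_rfl, by simp [hP.rk.empty], by simp [hP.rk'.empty]⟩ hE
    have h3 : k ≠ 0 := by
      rintro rfl
      apply h2
      push_cast at hk
      linarith
    obtain ⟨j, rfl⟩ := Nat.exists_eq_succ_of_ne_zero h3
    have h4 : (1 : ℤ) ≤ 2 ^ j := one_le_pow₀ (by norm_num)
    have h5 : (2 : ℤ) ^ (j.succ + 1) = 4 * 2 ^ j := by
      rw [Nat.succ_eq_add_one, pow_add, pow_add]; ring
    have h6 : (2 : ℤ) ^ j.succ = 2 * 2 ^ j := by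
      rw [Nat.succ_eq_add_one, pow_add]; ring
    rw [h5] at h1
    rw [h6]
    linarith
  · obtain ⟨A, hA, hAne, hBne⟩ := exists_fac hE hc
    have hA2 := hA.compl
    have hz1 : NoZero A r r' := fun B hB hBne => hz B (hA.trans hP hB) hBne
    have hz2 : NoZero (E \ A) r r' := fun B hB hBne => hz B (hA2.trans hP hB) hBne
    have d1 := hP.d_nonneg A
    have d2 := hP.d_nonneg (E \ A)
    obtain ⟨i, hi⟩ := Int.eq_ofNat_of_zero_le d1
    obtain ⟨j, hj⟩ := Int.eq_ofNat_of_zero_le d2
    have hs := hA.sep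
    have hs' := hA.sep'
    have hij : k = i + j := by omega
    have hc1 : A.card < E.card := Finset.card_lt_card
      (Finset.ssubset_iff_subset_ne.2 ⟨hA.sub, by
        rintro rfl
        simp at hBne⟩)
    have hc2 : (E \ A).card < E.card := Finset.card_lt_card
      (Finset.ssubset_iff_subset_ne.2 ⟨Finset.sdiff_subset, by
        intro h
        obtain ⟨a, ha⟩ := hAne
        have h1 := hA.sub ha
        rw [← h] at h1
        simp [ha] at h1⟩)
    have t1 := ih _ (by omega) A r r' i rfl (by omega) hP hz1 hi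
    have t2 := ih _ (by omega) (E \ A) r r' j rfl (by omega) hP hz2 hj
    rw [hA.T_mul hP, hij, pow_add]
    have p1 : (0 : ℤ) ≤ 2 ^ i := by positivity
    have p2 : (0 : ℤ) ≤ 2 ^ j := by positivity
    exact mul_le_mul t1 t2 p2 (p1.trans t1)

lemma T_nonneg_of {N : ℕ}
    (hB : ∀ (E : Finset α) (r r' : Finset α → ℤ) (k : ℕ), E.card < N → Persp r r' →
      Conn E r r' → r E - r' E = k → (2 : ℤ) ^ (k + 1) - 2 ≤ T E r r')
    {E : Finset α} {r r' : Finset α → ℤ} (hE : E.card < N) (hP : Persp r r') :
    0 ≤ T E r r' := by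
  by_cases hz : NoZero E r r'
  · obtain ⟨i, hi⟩ := Int.eq_ofNat_of_zero_le (hP.d_nonneg E)
    have := lem5 hB _ E r r' i rfl hE hP hz hi
    have p1 : (0 : ℤ) ≤ 2 ^ i := by positivity
    linarith
  · unfold NoZero at hz
    push Not at hz
    obtain ⟨A, hA, hAne, h0⟩ := hz
    rw [hA.T_mul hP, T_zero_of_eq hP hAne h0, zero_mul]

lemma con_diff {r r' : Finset α → ℤ} {E : Finset α} {e : α} (he : e ∈ E) :
    con r e (E.erase e) - con r' e (E.erase e) = r E - r' E - (r {e} - r' {e}) := by
  simp only [con, Finset.insert_erase he]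
  ring

theorem bound_aux : ∀ (N : ℕ) (E : Finset α) (r r' : Finset α → ℤ) (k : ℕ), E.card < N →
    Persp r r' → Conn E r r' → r E - r' E = k → (2 : ℤ) ^ (k + 1) - 2 ≤ T E r r' := by
  intro N
  induction N with
  | zero => intro E r r' k h; omega
  | succ N ih =>
  intro E r r' k hEN hP hc hk
  obtain ⟨e, he⟩ := hc.ne
  rcases Nat.eq_zero_or_pos k with rfl | hkpos
  · have h0 : T E r r' = 0 := T_zero_of_eq hP hc.ne (by push_cast at hk; linarith)
    rw [h0]; norm_num
  have hlt : r' E < r E := by omega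
  by_cases hne : (E.erase e).Nonempty
  swap
  · -- a single element
    rw [Finset.not_nonempty_iff_eq_empty] at hne
    have hE : E = {e} := by
      rw [← Finset.insert_erase he, hne]
      simp
    subst hE
    have h1 := hP.rk.singleton_le e
    have h2 := hP.rk'.nonneg {e}
    have h3 : r {e} = 1 := by omega
    have h4 : r' {e} = 0 := by omega
    have h5 : k = 1 := by omega
    subst h5
    have hps : ({e} : Finset α).powerset = {∅, {e}} := by
      ext x; simp [Finset.subset_singleton_iff]
    have hT : T {e} r r' = 2 := by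
      unfold T
      rw [hps, Finset.sum_pair (by simp [Finset.ext_iff])]
      rw [hP.rk.empty, hP.rk'.empty, h3, h4]
      simp only [Finset.card_empty, Finset.card_singleton]
      have s1 : sg (0 + 0 + ((0 : ℕ) : ℤ) + 0) = 1 := by simpa using sg_zero
      have s2 : sg (0 + 0 + ((1 : ℕ) : ℤ) + 1) = 1 := by
        have s3 : sg (0 + 0 + ((1 : ℕ) : ℤ) + 1) = sg 0 := sg_eq 1 (by norm_num)
        rw [s3, sg_zero]
      rw [s1, s2]; norm_num
    rw [hT]; norm_num
  have hr1 := hc.no_loop hP he hne
  have hr2 := hc.no_coloop hP he hne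
  have hT := T_delcon he hr2 hr1
  have hcard : (E.erase e).card < N := by
    have := Finset.card_erase_lt_of_mem he
    omega
  have n1 := T_nonneg_of ih hcard hP
  have n2 := T_nonneg_of ih hcard (hP.con e)
  have hcd := con_diff (r := r) (r' := r') he
  obtain ⟨j, rfl⟩ := Nat.exists_eq_succ_of_ne_zero (Nat.pos_iff_ne_zero.1 hkpos)
  have p1 : (2 : ℤ) ^ (j.succ + 1) = 4 * 2 ^ j := by
    rw [Nat.succ_eq_add_one, pow_add, pow_add]; ring
  have p2 : (2 : ℤ) ^ j.succ = 2 * 2 ^ j := by
    rw [Nat.succ_eq_add_one, pow_add]; ring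
  have p0 : (1 : ℤ) ≤ 2 ^ j := one_le_pow₀ (by norm_num)
  have u1 := hP.rk.unit (E.erase e) e
  rw [Finset.insert_erase he] at u1
  have m1 := hP.rk.mono (E.erase e) E (Finset.erase_subset _ _)
  have b0 := hP.rk'.nonneg {e}
  have b1 := hP.rk'.singleton_le e
  push_cast at hk
  by_cases ha : r (E.erase e) = r E - 1
  · -- isthmus of `M`
    have hb := hc.not_both hP he hne ha
    rcases claimU hP hc he hne (by linarith) with hd | hd
    · have t1 := ih _ _ _ j hcard hP hd (by linarith)
      have t2 := lem5 ih _ _ _ _ j.succ rfl hcard (hP.con e) (claimZ2 hP hc he hne ha)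
        (by push_cast; linarith)
      rw [hT, p1]
      rw [pow_succ] at t1
      rw [p2] at t2
      linarith
    · have t1 := ih _ _ _ j.succ hcard (hP.con e) hd (by push_cast; linarith)
      linarith
  have ha' : r (E.erase e) = r E := by omega
  by_cases hb : r' {e} = 0
  · -- loop of `M'`
    rcases claimU hP hc he hne (by linarith) with hd | hd
    · have t1 := ih _ _ _ j.succ hcard hP hd (by push_cast; linarith)
      linarith
    · have t1 := ih _ _ _ j hcard (hP.con e) hd (by linarith)
      have t2 := lem5 ih _ _ _ _ j.succ rfl hcard hP (claimZ3 hP hc he hne hb)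
        (by push_cast; linarith)
      rw [hT, p1]
      rw [pow_succ] at t1
      rw [p2] at t2
      linarith
  have hb' : r' {e} = 1 := by omega
  by_cases hd : Conn (E.erase e) r r'
  · have t1 := ih _ _ _ j.succ hcard hP hd (by push_cast; linarith)
    linarith
  by_cases hd2 : Conn (E.erase e) (con r e) (con r' e)
  · have t1 := ih _ _ _ j.succ hcard (hP.con e) hd2 (by push_cast; linarith)
    linarith
  have z1 : NoZero (E.erase e) r r' := by
    intro X hX hXne h0
    exact hd2 (claimV1 hP hc he hlt ha' hb' hX hXne h0)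
  have z2 : NoZero (E.erase e) (con r e) (con r' e) := by
    intro X hX hXne h0
    exact hd (claimV2 hP hc he hlt ha' hb' hX hXne h0)
  have t1 := lem5 ih _ _ _ _ j.succ rfl hcard hP z1 (by push_cast; linarith)
  have t2 := lem5 ih _ _ _ _ j.succ rfl hcard (hP.con e) z2 (by push_cast; linarith)
  rw [hT, p1]
  rw [p2] at t1 t2
  linarith

/-- The lower bound for connected perspectives. -/
theorem bound {E : Finset α} {r r' : Finset α → ℤ} {k : ℕ} (hP : Persp r r')
    (hc : Conn E r r') (hk : r E - r' E = k) : (2 : ℤ) ^ (k + 1) - 2 ≤ T E r r' :=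
  bound_aux (E.card + 1) E r r' k (by omega) hP hc hk

/-- The lower bound with no zero factor. -/
theorem bound_noZero {E : Finset α} {r r' : Finset α → ℤ} {k : ℕ} (hP : Persp r r')
    (hz : NoZero E r r') (hk : r E - r' E = k) : (2 : ℤ) ^ k ≤ T E r r' :=
  lem5 (N := E.card + 1) (fun _ _ _ _ _ hP hc hk => bound hP hc hk) _ E r r' k rfl (by omega)
    hP hz hk

theorem T_nonneg {E : Finset α} {r r' : Finset α → ℤ} (hP : Persp r r') : 0 ≤ T E r r' :=
  T_nonneg_of (N := E.card + 1) (fun _ _ _ _ _ hP hc hk => bound hP hc hk) (by omega) hP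

/-- A vanishing value comes with a zero factor. -/
theorem exists_zero {E : Finset α} {r r' : Finset α → ℤ} (hP : Persp r r')
    (h : T E r r' ≤ 0) : ∃ A, Fac E r r' A ∧ A.Nonempty ∧ r A = r' A := by
  by_contra hcon
  have hz : NoZero E r r' := by
    intro A hA hne h0
    exact hcon ⟨A, hA, hne, h0⟩
  obtain ⟨i, hi⟩ := Int.eq_ofNat_of_zero_le (hP.d_nonneg E)
  have := bound_noZero hP hz hi
  have p1 : (0 : ℤ) < 2 ^ i := by positivity
  linarith

end Pool.Agent.H.MP_321d0a_co
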