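import Pool.Agent.H.MP_321d0a_co.Find

/-!
# Classification of the extremal perspectives
-/

namespace Pool.Agent.H.MP_321d0a_co

open Finset

variable {α : Type*} [DecidableEq α]

lemma card_lt_of_fac {E A : Finset α} (hA : A ⊆ E) (hB : (E \ A).Nonempty) :
    A.card < E.card := Finset.card_lt_card
  (Finset.ssubset_iff_subset_ne.2 ⟨hA, by
    rintro rfl
    simp at hB⟩)

lemma card_lt_of_fac' {E A : Finset α} (hA : A ⊆ E) (hAne : A.Nonempty) :
    (E \ A).card < E.card := Finset.card_lt_card
  (Finset.ssubset_iff_subset_ne.2 ⟨Finset.sdiff_subset, by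
    intro h
    obtain ⟨a, ha⟩ := hAne
    have h1 := hA ha
    rw [← h] at h1
    simp [ha] at h1⟩)

/-- If the value is `2^k` then every element lies in a connected factor of rank difference one. -/
theorem comp_one : ∀ (n : ℕ) (F : Finset α) (s s' : Finset α → ℤ) (k : ℕ), F.card = n →
    Persp s s' → NoZero F s s' → s F - s' F = k → T F s s' ≤ 2 ^ k → ∀ f ∈ F,
    ∃ Q, Fac F s s' Q ∧ f ∈ Q ∧ Conn Q s s' ∧ s Q - s' Q = 1 := by
  intro n
  induction n using Nat.strong_induction_on with
  | _ n ih =>
  intro F s s' k hFn hP hz hk hT f hf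
  have hne : F.Nonempty := ⟨f, hf⟩
  have hFF : Fac F s s' F := ⟨subset_rfl, by simp [hP.rk.empty], by simp [hP.rk'.empty]⟩
  by_cases hc : Conn F s s'
  · refine ⟨F, hFF, hf, hc, ?_⟩
    have h1 := bound hP hc hk
    have h2 : s F ≠ s' F := hz F hFF hne
    have h3 : k ≠ 0 := by
      rintro rfl
      apply h2
      push_cast at hk
      linarith
    obtain ⟨j, rfl⟩ := Nat.exists_eq_succ_of_ne_zero h3
    rcases Nat.eq_zero_or_pos j with rfl | hj
    · simpa using hk
    · exfalso
      obtain ⟨i, rfl⟩ := Nat.exists_eq_succ_of_ne_zero (Nat.pos_iff_ne_zero.1 hj)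
      have p1 : (2 : ℤ) ^ (i.succ.succ + 1) = 8 * 2 ^ i := by
        simp only [Nat.succ_eq_add_one, pow_add]; ring
      have p2 : (2 : ℤ) ^ i.succ.succ = 4 * 2 ^ i := by
        simp only [Nat.succ_eq_add_one, pow_add]; ring
      have p0 : (1 : ℤ) ≤ 2 ^ i := one_le_pow₀ (by norm_num)
      rw [p1] at h1
      rw [p2] at hT
      linarith
  · obtain ⟨A, hA, hAne, hBne⟩ := exists_fac hne hc
    have hA2 := hA.compl
    have hz1 : NoZero A s s' := fun B hB hBne => hz B (hA.trans hP hB) hBne
    have hz2 : NoZero (F \ A) s s' := fun B hB hBne => hz B (hA2.trans hP hB) hBne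
    obtain ⟨i, hi⟩ := Int.eq_ofNat_of_zero_le (hP.d_nonneg A)
    obtain ⟨j, hj⟩ := Int.eq_ofNat_of_zero_le (hP.d_nonneg (F \ A))
    have hs := hA.sep
    have hs' := hA.sep'
    have hij : k = i + j := by omega
    have t1 := bound_noZero hP hz1 hi
    have t2 := bound_noZero hP hz2 hj
    have p1 : (1 : ℤ) ≤ 2 ^ i := one_le_pow₀ (by norm_num)
    have p2 : (1 : ℤ) ≤ 2 ^ j := one_le_pow₀ (by norm_num)
    rw [hA.T_mul hP, hij, pow_add] at hT
    by_cases hfA : f ∈ A
    · have hTA : T A s s' ≤ 2 ^ i := by
        by_contra hcon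
        push Not at hcon
        nlinarith
      obtain ⟨Q, h1, h2, h3, h4⟩ := ih A.card (by have := card_lt_of_fac hA.sub hBne; omega)
        A s s' i rfl hP hz1 hi hTA f hfA
      exact ⟨Q, hA.trans hP h1, h2, h3, h4⟩
    · have hTB : T (F \ A) s s' ≤ 2 ^ j := by
        by_contra hcon
        push Not at hcon
        nlinarith
      obtain ⟨Q, h1, h2, h3, h4⟩ := ih (F \ A).card
        (by have := card_lt_of_fac' hA.sub hAne; omega)
        (F \ A) s s' j rfl hP hz2 hj hTB f (Finset.mem_sdiff.2 ⟨hf, hfA⟩)
      exact ⟨Q, hA2.trans hP h1, h2, h3, h4⟩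

/-- The case where `M` is free. -/
theorem free_case {E : Finset α} {r r' : Finset α → ℤ} {k : ℕ} (hP : Persp r r')
    (hc : Conn E r r') (hcard : 2 ≤ E.card) (hk : r E - r' E = k) (hk1 : 1 ≤ k)
    (hT : T E r r' ≤ 2 ^ (k + 1) - 2) (hfree : r E = E.card) :
    (∃ x y, Ser E r' x y) ∨ Star E r r' := by
  have hfr : ∀ X, X ⊆ E → r X = X.card := by
    intro X hX
    have h1 := hP.rk.card_le hX
    have h2 := hP.rk.card_le (Finset.empty_subset X)
    rw [hP.rk.empty] at h2
    simp only [Finset.card_empty] at h2
    push_cast at h2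
    linarith
  obtain ⟨e, he⟩ := hc.ne
  have hnex : ∀ x ∈ E, (E.erase x).Nonempty := by
    intro x hx
    rw [← Finset.card_pos, Finset.card_erase_of_mem hx]
    omega
  have hne := hnex e he
  have hiso : ∀ x ∈ E, r (E.erase x) = r E - 1 := by
    intro x hx
    rw [hfr _ (Finset.erase_subset _ _), hfree, card_erase_int hx]
  have hb : ∀ x ∈ E, r' {x} = 1 := fun x hx => hc.not_both hP hx (hnex x hx) (hiso x hx)
  have hcol : ∀ x ∈ E, r' (E.erase x) = r' E := fun x hx => hc.no_coloop hP hx (hnex x hx)
  have hl := hc.no_loop hP he hne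
  have hTd := T_delcon he (hcol e he) hl
  have hcd := con_diff (r := r) (r' := r') he
  have hbe := hb e he
  have hkc : con r e (E.erase e) - con r' e (E.erase e) = k := by linarith
  have hz := claimZ2 hP hc he hne (hiso e he)
  have t2 := bound_noZero (hP.con e) hz hkc
  have e0 : insert e (E.erase e) = E := Finset.insert_erase he
  obtain ⟨j, rfl⟩ := Nat.exists_eq_succ_of_ne_zero (n := k) (by omega)
  have hkd : r (E.erase e) - r' (E.erase e) = j := by
    rw [hiso e he, hcol e he]; push_cast at hk; linarith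
  have p1 : (2 : ℤ) ^ (j.succ + 1) = 4 * 2 ^ j := by
    rw [Nat.succ_eq_add_one, pow_add, pow_add]; ring
  have p2 : (2 : ℤ) ^ j.succ = 2 * 2 ^ j := by
    rw [Nat.succ_eq_add_one, pow_add]; ring
  by_cases hcc : Conn (E.erase e) (con r e) (con r' e)
  · left
    have t3 := bound (hP.con e) hcc hkc
    obtain ⟨X, hX, hXne, h0⟩ := exists_zero (E := E.erase e) hP (by linarith)
    obtain ⟨a, ha⟩ := hXne
    have hXs := hX.sub
    have haE : a ∈ E := by grind
    have hae : a ≠ e := by grind
    refine ⟨a, e, hae, haE, he, hcol a haE, hcol e he, ?_⟩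
    have q1 := hX.sep'
    have s1 := hP.rk'.su (U := E \ {a, e}) (X.erase a) (E.erase e \ X) (by grind)
    have s2 := hP.rk'.unit (E \ {a, e}) e
    have e1 : insert e (E \ {a, e}) = E.erase a := by grind
    rw [e1, hcol a haE] at s2
    have d1 := hP.d_nonneg (X.erase a)
    have f1 := hfr X (by grind)
    have f2 := hfr (X.erase a) (by grind)
    rw [card_erase_int ha] at f2
    rw [hcol e he] at q1
    linarith
  · have hdc : Conn (E.erase e) r r' := by
      rcases claimU hP hc he hne (by rw [hiso e he, hcol e he, hl, hbe]; linarith) with h | h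
      · exact h
      · exact absurd h hcc
    have t3 := bound hP hdc hkd
    have hcomp := comp_one (E.erase e).card (E.erase e) (con r e) (con r' e) j.succ rfl
      (hP.con e) hz hkc (by rw [p2]; rw [p1] at hT; rw [pow_succ] at t3; linarith)
    by_cases hall : ∀ f ∈ E.erase e, con r' e {f} = 0
    · right
      refine ⟨hcard, hfree, hb, ?_⟩
      have key : ∀ Z : Finset α, Z ⊆ E.erase e → con r' e Z = 0 := by
        intro Z
        induction Z using Finset.induction_on with
        | empty => intro _; exact (hP.con e).rk'.empty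
        | insert a Z ha ih =>
          intro hZ
          have i1 := ih ((Finset.subset_insert _ _).trans hZ)
          have i2 := hall a (hZ (Finset.mem_insert_self _ _))
          have i3 := (hP.con e).rk'.su (U := insert a Z) {a} Z (by grind)
          have i4 := (hP.con e).rk'.nonneg (insert a Z)
          linarith
      have := key (E.erase e) subset_rfl
      simp only [con, e0] at this
      linarith
    · left
      push Not at hall
      obtain ⟨f, hf, hf0⟩ := hall
      obtain ⟨Q, hQ, hfQ, hQc, hQ1⟩ := hcomp f hf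
      have hQs := hQ.sub
      have hfE : f ∈ E := by grind
      have hcr : ∀ X, X ⊆ E.erase e → con r e X = X.card := by
        intro X hX
        have heX : e ∉ X := by grind
        simp only [con]
        rw [hfr _ (by grind), hl, Finset.card_insert_of_notMem heX]
        push_cast
        ring
      have hQne : ∃ g ∈ Q, g ≠ f := by
        by_contra hcon
        have hQf : Q = {f} := by
          ext x
          simp only [Finset.mem_singleton]
          constructor
          · intro hx
            by_contra hxf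
            exact hcon ⟨x, hx, hxf⟩
          · rintro rfl
            exact hfQ
        rw [hQf] at hQ1
        have c1 := hcr {f} (by simpa using hf)
        simp only [Finset.card_singleton] at c1
        push_cast at c1
        apply hf0
        linarith
      obtain ⟨g, hgQ, hgf⟩ := hQne
      have hgE : g ∈ E := by grind
      refine ⟨f, g, hgf.symm, hfE, hgE, hcol f hfE, hcol g hgE, ?_⟩
      have c2 := hcr Q hQs
      have c3 := hcr (Q \ {f, g}) (by grind)
      rw [card_sdiff_pair hgf.symm hfQ hgQ] at c3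
      have d1 := (hP.con e).d_nonneg (Q \ {f, g})
      have s1 := (hP.con e).rk'.su (U := E.erase e \ {f, g}) (Q \ {f, g}) (E.erase e \ Q)
        (by grind)
      have s2 := hQ.sep'
      have s3 : con r' e (E.erase e \ {f, g}) = r' (E \ {f, g}) - 1 := by
        have e1 : insert e (E.erase e \ {f, g}) = E \ {f, g} := by grind
        simp only [con, e1, hbe]
      have s4 : con r' e (E.erase e) = r' E - 1 := by
        simp only [con, e0, hbe]
      have s5 := hP.rk'.unit (E \ {f, g}) f
      have e2 : insert f (E \ {f, g}) = E.erase g := by grind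
      rw [e2, hcol g hgE] at s5
      linarith

/-- No regular element. -/
theorem noreg_case {E : Finset α} {r r' : Finset α → ℤ} {k : ℕ} (hP : Persp r r')
    (hc : Conn E r r') (hcard : 2 ≤ E.card) (hk : r E - r' E = k) (hk1 : 1 ≤ k)
    (hT : T E r r' ≤ 2 ^ (k + 1) - 2)
    (hno : ∀ e ∈ E, r (E.erase e) = r E - 1 ∨ r' {e} = 0) :
    (∃ x y, Par E r x y) ∨ (∃ x y, Ser E r' x y) ∨ Cyc E r r' ∨ Star E r r' := by
  have hnex : ∀ x ∈ E, (E.erase x).Nonempty := by
    intro x hx
    rw [← Finset.card_pos, Finset.card_erase_of_mem hx]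
    omega
  set I := E.filter (fun e => r (E.erase e) = r E - 1) with hI
  have hIs : I ⊆ E := Finset.filter_subset _ _
  have k1 : ∀ J : Finset α, J ⊆ I → r (E \ J) ≤ r E - J.card := by
    intro J
    induction J using Finset.induction_on with
    | empty => intro _; simp
    | insert a J ha ih =>
      intro hJ
      have i1 := ih ((Finset.subset_insert _ _).trans hJ)
      have haI : a ∈ I := hJ (Finset.mem_insert_self _ _)
      have i2 := (Finset.mem_filter.1 haI).2
      have haE := hIs haI
      have i3 := hP.rk.sm (U := E) (I := E \ insert a J) (E \ J) (E.erase a) (by grind)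
        (by grind)
      rw [Finset.card_insert_of_notMem ha]
      push_cast
      linarith
  have k2 : ∀ J : Finset α, J ⊆ E \ I → r' J ≤ 0 := by
    intro J
    induction J using Finset.induction_on with
    | empty => intro _; rw [hP.rk'.empty]
    | insert a J ha ih =>
      intro hJ
      have i1 := ih ((Finset.subset_insert _ _).trans hJ)
      have haI := Finset.mem_sdiff.1 (hJ (Finset.mem_insert_self _ _))
      have i2 : r' {a} = 0 := by
        rcases hno a haI.1 with h | h
        · exact absurd (Finset.mem_filter.2 ⟨haI.1, h⟩) haI.2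
        · exact h
      have i3 := hP.rk'.su (U := insert a J) {a} J (by grind)
      linarith
  by_cases hI0 : I = ∅
  · -- `M'` consists of loops
    have hE0 := k2 E (by rw [hI0]; simp)
    have hE0' : r' E = 0 := le_antisymm hE0 (hP.rk'.nonneg E)
    have htop := du_diff_top (E := E) hP
    have h1 := free_case (hP.du E) (hc.du hP) hcard (k := k) (by linarith) hk1
      (by rw [T_du hP]; exact hT) (by rw [du_top hP.rk', hE0']; ring)
    rcases h1 with ⟨x, y, hxy⟩ | h1
    · exact Or.inl ⟨x, y, hxy.to_par hP.rk⟩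
    · exact Or.inr (Or.inr (Or.inl (h1.to_cyc hP)))
  by_cases hIE : E \ I = ∅
  · -- `M` is free
    have hIE' : I = E := Finset.Subset.antisymm hIs (Finset.sdiff_eq_empty_iff_subset.1 hIE)
    have h1 := k1 E (by rw [hIE'])
    rw [Finset.sdiff_self, hP.rk.empty] at h1
    have h2 := hP.rk.card_le (Finset.empty_subset E)
    rw [hP.rk.empty] at h2
    simp only [Finset.card_empty] at h2
    push_cast at h2
    rcases free_case hP hc hcard hk hk1 hT (by linarith) with h3 | h3
    · exact Or.inr (Or.inl h3)
    · exact Or.inr (Or.inr (Or.inr h3))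
  · exfalso
    rw [← Ne.eq_def, ← Finset.nonempty_iff_ne_empty] at hI0 hIE
    have h1 := k1 I subset_rfl
    have h2 := hP.rk.card_le (Finset.empty_subset I)
    rw [hP.rk.empty] at h2
    simp only [Finset.card_empty] at h2
    push_cast at h2
    have h3 := k2 (E \ I) subset_rfl
    have h4 := hP.rk'.mono I E hIs
    exact hc.contra hP hIs hI0 hIE (by linarith) (by linarith)

/-- Structure of an extremal perspective with at least two elements. -/
theorem structure_ext {E : Finset α} {r r' : Finset α → ℤ} {k : ℕ} (hP : Persp r r')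
    (hc : Conn E r r') (hcard : 2 ≤ E.card) (hk : r E - r' E = k) (hk1 : 1 ≤ k)
    (hT : T E r r' ≤ 2 ^ (k + 1) - 2) :
    (∃ x y, Par E r x y) ∨ (∃ x y, Ser E r' x y) ∨ Cyc E r r' ∨ Star E r r' := by
  have hnex : ∀ x ∈ E, (E.erase x).Nonempty := by
    intro x hx
    rw [← Finset.card_pos, Finset.card_erase_of_mem hx]
    omega
  have hlt : r' E < r E := by omega
  obtain ⟨j, rfl⟩ := Nat.exists_eq_succ_of_ne_zero (n := k) (by omega)
  have p0 : (1 : ℤ) ≤ 2 ^ j := one_le_pow₀ (by norm_num)
  have p1 : (2 : ℤ) ^ (j.succ + 1) = 4 * 2 ^ j := by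
    rw [Nat.succ_eq_add_one, pow_add, pow_add]; ring
  have p2 : (2 : ℤ) ^ j.succ = 2 * 2 ^ j := by
    rw [Nat.succ_eq_add_one, pow_add]; ring
  rw [p1] at hT
  -- the rank differences and the recursion at a regular element
  have hreg : ∀ a ∈ E, r (E.erase a) = r E → r' {a} = 1 →
      T E r r' = T (E.erase a) r r' + T (E.erase a) (con r a) (con r' a) ∧
      r (E.erase a) - r' (E.erase a) = j.succ ∧
      con r a (E.erase a) - con r' a (E.erase a) = j.succ := by
    intro a ha h1 h2
    have c1 := hc.no_coloop hP ha (hnex a ha)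
    have c2 := hc.no_loop hP ha (hnex a ha)
    have c3 := con_diff (r := r) (r' := r') ha
    exact ⟨T_delcon ha c1 c2, by linarith, by linarith⟩
  have hExt : Ext E r r' := by
    intro a ha h1 h2 ⟨h3, h4⟩
    obtain ⟨q1, q2, q3⟩ := hreg a ha h1 h2
    have b1 := bound hP h3 q2
    have b2 := bound (hP.con a) h4 q3
    rw [p1] at b1 b2
    linarith
  by_cases hex : ∃ e ∈ E, r (E.erase e) = r E ∧ r' {e} = 1
  swap
  · have h1 := noreg_case hP hc hcard hk hk1 (by rw [p1]; exact hT) (by
      intro e he
      by_contra hcon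
      apply hex
      refine ⟨e, he, ?_, ?_⟩
      · have u1 := hP.rk.unit (E.erase e) e
        rw [Finset.insert_erase he] at u1
        have u2 := hP.rk.mono (E.erase e) E (Finset.erase_subset _ _)
        have h1 : ¬ (r (E.erase e) = r E - 1) := fun h => hcon (Or.inl h)
        omega
      · have u1 := hP.rk'.singleton_le e
        have u2 := hP.rk'.nonneg {e}
        have h1 : ¬ (r' {e} = 0) := fun h => hcon (Or.inr h)
        omega)
    exact h1
  obtain ⟨e, he, hre, hre'⟩ := hex
  obtain ⟨q1, q2, q3⟩ := hreg e he hre hre'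
  have hne := hnex e he
  have hce := hc.no_coloop hP he hne
  have hle := hc.no_loop hP he hne
  -- a zero factor in the deletion or in the contraction
  have hzero : (∃ X, Fac (E.erase e) r r' X ∧ X.Nonempty ∧ r X = r' X) ∨
      (∃ X, Fac (E.erase e) (con r e) (con r' e) X ∧ X.Nonempty ∧ con r e X = con r' e X) := by
    by_cases hd : Conn (E.erase e) r r'
    · right
      have b1 := bound hP hd q2
      rw [p1] at b1
      exact exists_zero (hP.con e) (by linarith)
    by_cases hd2 : Conn (E.erase e) (con r e) (con r' e)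
    · left
      have b1 := bound (hP.con e) hd2 q3
      rw [p1] at b1
      exact exists_zero hP (by linarith)
    by_contra hcon
    rw [not_or] at hcon
    have z1 : NoZero (E.erase e) r r' := fun X hX hXne h0 => hcon.1 ⟨X, hX, hXne, h0⟩
    have z2 : NoZero (E.erase e) (con r e) (con r' e) :=
      fun X hX hXne h0 => hcon.2 ⟨X, hX, hXne, h0⟩
    have b1 := bound_noZero hP z1 q2
    have b2 := bound_noZero (hP.con e) z2 q3
    rw [p2] at b1 b2
    linarith
  rcases hzero with ⟨X, hX, hXne, h0⟩ | ⟨X, hX, hXne, h0⟩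
  · have := find_pair X.card E r r' e X rfl
      ⟨hP, hc, he, hlt, hre, hce, hle, hre', hX.sub, by rw [← hre]; exact hX.sep,
        by rw [← hce]; exact hX.sep', hXne, h0⟩ hExt
    rcases this with h | h
    · exact Or.inl h
    · exact Or.inr (Or.inl h)
  · have hFd : Fac (E.erase e) (du E r') (du E r) X :=
      (hX.du (hP.con e)).congr (fun Z hZ => du_con r' he hZ) (fun Z hZ => du_con r he hZ)
    have hdd := du_diff hX
    rw [du_con r' he hX.sub, du_con r he hX.sub] at hdd
    have htop := du_diff_top (E := E) hP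
    have g1 : du E r' (E.erase e) = du E r' E := by
      rw [du_erase r' he, du_top hP.rk', hre']; ring
    have g2 : du E r (E.erase e) = du E r E := by
      rw [du_erase r he, du_top hP.rk, hle]; ring
    have g3 : du E r' {e} = 1 := by
      rw [du_singleton, hce]; ring
    have g4 : du E r {e} = 1 := by
      rw [du_singleton, hre]; ring
    have := find_pair X.card E (du E r') (du E r) e X rfl
      ⟨hP.du E, hc.du hP, he, by linarith, g1, g2, g3, g4, hX.sub,
        by rw [← g1]; exact hFd.sep, by rw [← g2]; exact hFd.sep', hXne, by linarith⟩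
      (hExt.du hP)
    rcases this with ⟨x, y, hxy⟩ | ⟨x, y, hxy⟩
    · exact Or.inr (Or.inl ⟨x, y, hxy.to_ser⟩)
    · exact Or.inl ⟨x, y, hxy.to_par hP.rk⟩

/-- The extremal perspectives, in terms of rank functions. -/
inductive SPr : Finset α → (Finset α → ℤ) → (Finset α → ℤ) → Prop
  | point {e : α} {r r' : Finset α → ℤ} (h : r {e} = 1) (h' : r' {e} = 0) : SPr {e} r r'
  | cyc {E : Finset α} {r r' : Finset α → ℤ} (h : Cyc E r r') : SPr E r r'
  | star {E : Finset α} {r r' : Finset α → ℤ} (h : Star E r r') : SPr E r r'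
  | par {E : Finset α} {r r' : Finset α → ℤ} {x y : α} (h : Par E r x y)
      (ih : SPr (E.erase y) r r') : SPr E r r'
  | ser {E : Finset α} {r r' : Finset α → ℤ} {x y : α} (h : Ser E r' x y)
      (ih : SPr (E.erase y) (con r y) (con r' y)) : SPr E r r'

theorem SPr_of_extremal : ∀ (n : ℕ) (E : Finset α) (r r' : Finset α → ℤ) (k : ℕ),
    E.card = n → Persp r r' → Conn E r r' → r E - r' E = k → 1 ≤ k →
    T E r r' ≤ 2 ^ (k + 1) - 2 → SPr E r r' := by
  intro n
  induction n with
  | zero =>
    intro E r r' k hE hP hc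
    have := Finset.card_pos.2 hc.ne
    omega
  | succ n ih =>
  intro E r r' k hEn hP hc hk hk1 hT
  by_cases hcard : 2 ≤ E.card
  · rcases structure_ext hP hc hcard hk hk1 hT with ⟨x, y, h⟩ | ⟨x, y, h⟩ | h | h
    · have hr := h.rank hP
      refine SPr.par h (ih _ r r' k ?_ hP (h.conn hP hc) (by linarith) hk1 ?_)
      · rw [Finset.card_erase_of_mem h.2.2.1]; omega
      · rw [← h.T hP]; exact hT
    · have hr := h.rank hP
      refine SPr.ser h (ih _ _ _ k ?_ (hP.con y) (h.conn hP hc) (by linarith) hk1 ?_)
      · rw [Finset.card_erase_of_mem h.2.2.1]; omega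
      · rw [← h.T hP]; exact hT
    · exact SPr.cyc h
    · exact SPr.star h
  · have h1 : E.card = 1 := by
      have := Finset.card_pos.2 hc.ne
      omega
    obtain ⟨e, rfl⟩ := Finset.card_eq_one.1 h1
    have a1 := hP.rk.singleton_le e
    have a2 := hP.rk'.nonneg {e}
    exact SPr.point (by omega) (by omega)

lemma conn_singleton {e : α} {r r' : Finset α → ℤ} : Conn {e} r r' where
  ne := by simp
  fac A hA hne := by
    rcases Finset.subset_singleton_iff.1 hA.sub with h | h
    · rw [h] at hne; simp at hne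
    · exact h

lemma T_point {e : α} {r r' : Finset α → ℤ} (hP : Persp r r') (h3 : r {e} = 1)
    (h4 : r' {e} = 0) : T {e} r r' = 2 := by
  have hps : ({e} : Finset α).powerset = {∅, {e}} := by
    ext x; simp [Finset.subset_singleton_iff]
  unfold T
  rw [hps, Finset.sum_pair (by simp [Finset.ext_iff])]
  rw [hP.rk.empty, hP.rk'.empty, h3, h4]
  simp only [Finset.card_empty, Finset.card_singleton]
  have s1 : sg (0 + 0 + ((0 : ℕ) : ℤ) + 0) = 1 := by simpa using sg_zero
  have s2 : sg (0 + 0 + ((1 : ℕ) : ℤ) + 1) = 1 := by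
    have s3 : sg (0 + 0 + ((1 : ℕ) : ℤ) + 1) = sg 0 := sg_eq 1 (by norm_num)
    rw [s3, sg_zero]
  rw [s1, s2]; norm_num

theorem extremal_of_SPr {E : Finset α} {r r' : Finset α → ℤ} (hP : Persp r r')
    (h : SPr E r r') : Conn E r r' ∧ ∃ k : ℕ, 1 ≤ k ∧ r E - r' E = k ∧
      T E r r' = 2 ^ (k + 1) - 2 := by
  induction h with
  | point h h' =>
    refine ⟨conn_singleton, 1, le_rfl, ?_, ?_⟩
    · rw [h, h']; norm_num
    · rw [T_point hP h h']; norm_num
  | @cyc E r r' h =>
    refine ⟨h.conn, E.card - 1, ?_, ?_, ?_⟩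
    · have := h.1; omega
    · rw [h.2.1, h.2.2.2]
      have : 1 ≤ E.card := by have := h.1; omega
      push_cast [this]; ring
    · rw [h.T hP]
      have : E.card - 1 + 1 = E.card := by have := h.1; omega
      rw [this]
  | @star E r r' h =>
    refine ⟨h.conn hP, E.card - 1, ?_, ?_, ?_⟩
    · have := h.1; omega
    · rw [h.2.1, h.2.2.2]
      have : 1 ≤ E.card := by have := h.1; omega
      push_cast [this]; ring
    · rw [h.T hP]
      have : E.card - 1 + 1 = E.card := by have := h.1; omega
      rw [this]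
  | @par E r r' x y h _ ih =>
    obtain ⟨h1, k, h2, h3, h4⟩ := ih hP
    have hr := h.rank hP
    exact ⟨h.conn_of hP h1, k, h2, by linarith, by rw [h.T hP]; exact h4⟩
  | @ser E r r' x y h _ ih =>
    obtain ⟨h1, k, h2, h3, h4⟩ := ih (hP.con y)
    have hr := h.rank hP
    exact ⟨h.conn_of hP h1, k, h2, by linarith, by rw [h.T hP]; exact h4⟩

end Pool.Agent.H.MP_321d0a_co
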