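import Pool.Agent.H.MP_321d0a_co.Defs
import Pool.Agent.H.MP_321d0a_co.Classify

/-!
# From matroids to pairs of rank functions
-/

namespace Pool.Agent.H.MP_321d0a_co

open Set Matroid

variable {α : Type*}

/-- The rank function of `M` on finite sets, integer valued. -/
noncomputable def rf (M : Matroid α) (X : Finset α) : ℤ := (rk M (X : Set α) : ℤ)

lemma rk_cast (M : Matroid α) {X : Set α} (hX : X.Finite) : ((rk M X : ℕ) : ℕ∞) = M.eRk X := by
  unfold rk
  apply ENat.natCast_toNat
  intro h
  have h1 := M.eRk_le_encard X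
  rw [h, top_le_iff, encard_eq_top_iff] at h1
  exact h1 hX

lemma rk_fin (M : Matroid α) (X : Finset α) : ((rk M (X : Set α) : ℕ) : ℕ∞) = M.eRk X :=
  rk_cast M X.finite_toSet

section
variable [DecidableEq α]

lemma isRk_rf (M : Matroid α) : IsRk (rf M) where
  empty := by
    have h := rk_fin M ∅
    rw [Finset.coe_empty, eRk_empty] at h
    have h2 : rk M ∅ = 0 := by exact_mod_cast h
    simp [rf, h2]
  mono X Y hXY := by
    have h := M.eRk_mono (Finset.coe_subset.2 hXY)
    rw [← rk_fin, ← rk_fin] at h
    have h2 : rk M X ≤ rk M Y := by exact_mod_cast h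
    simp only [rf]
    exact_mod_cast h2
  unit X e := by
    have h := M.eRk_insert_le_add_one e (X : Set α)
    rw [← Finset.coe_insert, ← rk_fin, ← rk_fin] at h
    have h2 : rk M (insert e X : Finset α) ≤ rk M X + 1 := by exact_mod_cast h
    simp only [rf]
    exact_mod_cast h2
  submod X Y := by
    have h := M.eRk_inter_add_eRk_union_le (X : Set α) (Y : Set α)
    rw [← Finset.coe_union, ← Finset.coe_inter, ← rk_fin, ← rk_fin, ← rk_fin, ← rk_fin] at h
    have h2 : rk M (X ∩ Y : Finset α) + rk M (X ∪ Y : Finset α) ≤ rk M X + rk M Y := by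
      exact_mod_cast h
    simp only [rf]
    have h3 : ((rk M (X ∩ Y : Finset α) + rk M (X ∪ Y : Finset α) : ℕ) : ℤ) ≤
      ((rk M X + rk M Y : ℕ) : ℤ) := by exact_mod_cast h2
    push_cast at h3 ⊢
    linarith

lemma persp_of_step {r r' : Finset α → ℤ} (hr : IsRk r) (hr' : IsRk r')
    (h : ∀ X e, r' (insert e X) - r' X ≤ r (insert e X) - r X) : Persp r r' where
  rk := hr
  rk' := hr'
  le X Y hXY := by
    have key : ∀ Z : Finset α, r' (X ∪ Z) - r' X ≤ r (X ∪ Z) - r X := by
      intro Z
      induction Z using Finset.induction_on with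
      | empty => simp
      | insert a Z ha ih =>
        have h1 := h (X ∪ Z) a
        have e1 : X ∪ insert a Z = insert a (X ∪ Z) := by grind
        rw [e1]
        linarith
    have h1 := key Y
    rwa [Finset.union_eq_right.2 hXY] at h1

lemma mem_closure_of_rf {M : Matroid α} {X : Finset α} {e : α} (he : e ∈ M.E)
    (h : rf M (insert e X) ≤ rf M X) : e ∈ M.closure X := by
  by_contra hcon
  have h1 := eRk_insert_eq_add_one (M := M) (e := e) (X := (X : Set α)) ⟨he, hcon⟩
  rw [← Finset.coe_insert, ← rk_fin, ← rk_fin] at h1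
  have h2 : rk M (insert e X : Finset α) = rk M X + 1 := by exact_mod_cast h1
  simp only [rf, h2] at h
  push_cast at h
  linarith

lemma rf_insert_of_mem_closure {M : Matroid α} {X : Finset α} {e : α}
    (h : e ∈ M.closure X) : rf M (insert e X) = rf M X := by
  have h1 : M.eRk (insert e X : Finset α) = M.eRk (X : Set α) := by
    rw [Finset.coe_insert, ← eRk_closure_eq, closure_insert_eq_of_mem_closure h, eRk_closure_eq]
  rw [← rk_fin, ← rk_fin] at h1
  have h2 : rk M (insert e X : Finset α) = rk M X := by exact_mod_cast h1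
  simp only [rf, h2]

lemma rf_insert_of_notMem_ground {M : Matroid α} {X : Finset α} {e : α}
    (h : e ∉ M.E) : rf M (insert e X) = rf M X := by
  have h1 : M.eRk (insert e X : Finset α) = M.eRk (X : Set α) := by
    rw [Finset.coe_insert, eRk_insert_of_notMem_ground _ h]
  rw [← rk_fin, ← rk_fin] at h1
  have h2 : rk M (insert e X : Finset α) = rk M X := by exact_mod_cast h1
  simp only [rf, h2]

lemma IsPersp.persp {M M' : Matroid α} (h : IsPersp M M') : Persp (rf M) (rf M') := by
  refine persp_of_step (isRk_rf M) (isRk_rf M') ?_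
  intro X e
  by_cases he : e ∈ M.E
  · by_cases hr : rf M (insert e X) ≤ rf M X
    · have h1 := mem_closure_of_rf he hr
      have h2 : M.closure X ⊆ M'.closure X := by
        have h3 : M.IsFlat (M'.closure X) := h.2 _ (isFlat_closure _)
        have h4 : (X : Set α) ∩ M.E ⊆ M'.closure X := by
          rw [← h.1]
          exact M'.inter_ground_subset_closure _
        rw [← closure_inter_ground, ← h3.closure]
        exact M.closure_subset_closure h4
      rw [rf_insert_of_mem_closure h1, rf_insert_of_mem_closure (h2 h1)]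
      linarith
    · have h1 := (isRk_rf M').unit X e
      push Not at hr
      linarith
  · rw [rf_insert_of_notMem_ground he, rf_insert_of_notMem_ground (h.1 ▸ he)]
    linarith

lemma isPersp_of_persp {M M' : Matroid α} (hfin : M.Finite) (hE : M'.E = M.E)
    (h : ∀ (X : Finset α) (e : α), (X : Set α) ⊆ M.E → e ∈ M.E →
      rf M' (insert e X) - rf M' X ≤ rf M (insert e X) - rf M X) : IsPersp M M' := by
  refine ⟨hE, fun F hF => ?_⟩
  have hFE : F ⊆ M.E := hE ▸ hF.subset_ground
  have hFfin : F.Finite := M.ground_finite.subset hFE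
  rw [isFlat_iff_closure_eq]
  refine Set.Subset.antisymm ?_ (M.subset_closure F hFE)
  intro e he
  by_contra heF
  have heE : e ∈ M.E := M.closure_subset_ground _ he
  lift F to Finset α using hFfin
  have h1 := rf_insert_of_mem_closure he
  have h2 := h F e hFE heE
  have h3 : e ∈ M'.closure F := mem_closure_of_rf (hE ▸ heE) (by linarith)
  rw [hF.closure] at h3
  exact heF h3

/-! ### Independence, circuits, duality -/

omit [DecidableEq α] in
lemma indep_iff_rf {M : Matroid α} {X : Finset α} : M.Indep X ↔ rf M X = X.card := by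
  rw [indep_iff_eRk_eq_encard_of_finite X.finite_toSet, ← rk_fin, encard_coe_eq_coe_finsetCard]
  simp only [rf]
  norm_cast

lemma rf_le_card (M : Matroid α) (X : Finset α) : rf M X ≤ X.card := by
  have h := (isRk_rf M).card_le (Finset.empty_subset X)
  rw [(isRk_rf M).empty] at h
  simpa using h

lemma isCircuit_iff_rf {M : Matroid α} {C : Finset α} (hC : (C : Set α) ⊆ M.E)
    (hne : C.Nonempty) :
    M.IsCircuit C ↔ rf M C = C.card - 1 ∧ ∀ X, X ⊂ C → rf M X = X.card := by
  rw [isCircuit_iff_forall_ssubset]
  constructor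
  · rintro ⟨h1, h2⟩
    have h3 : ∀ X, X ⊂ C → rf M X = X.card := fun X hX =>
      indep_iff_rf.1 (h2 (Finset.coe_ssubset.2 hX))
    refine ⟨?_, h3⟩
    have h4 : rf M C ≠ C.card := fun h => h1.not_indep (indep_iff_rf.2 h)
    have h5 := rf_le_card M C
    obtain ⟨e, he⟩ := hne
    have h6 := h3 (C.erase e) (Finset.erase_ssubset he)
    have h7 := (isRk_rf M).mono (C.erase e) C (Finset.erase_subset _ _)
    rw [card_erase_int he] at h6
    omega
  · rintro ⟨h1, h2⟩
    refine ⟨⟨fun h => ?_, hC⟩, ?_⟩
    · have := indep_iff_rf.1 h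
      linarith
    · intro I hI
      have hfin : I.Finite := C.finite_toSet.subset hI.subset
      lift I to Finset α using hfin
      exact indep_iff_rf.2 (h2 I (Finset.coe_ssubset.1 hI))

lemma rf_dual {M : Matroid α} {E : Finset α} (hE : M.E = E) {X : Finset α} (hX : X ⊆ E) :
    rf M✶ X = du E (rf M) X := by
  have hXE : (X : Set α) ⊆ M.E := by rw [hE]; exact Finset.coe_subset.2 hX
  have h := M.eRk_dual_add_eRank X hXE
  rw [eRank_def, hE, ← Finset.coe_sdiff, encard_coe_eq_coe_finsetCard, ← rk_fin, ← rk_fin,
    ← rk_fin] at h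
  have h2 : rk M✶ X + rk M E = rk M (E \ X : Finset α) + X.card := by exact_mod_cast h
  simp only [rf, du]
  have h3 : ((rk M✶ X + rk M E : ℕ) : ℤ) = ((rk M (E \ X : Finset α) + X.card : ℕ) : ℤ) := by
    exact_mod_cast h2
  push_cast at h3 ⊢
  linarith

/-! ### Factors -/

lemma sum_iff_rf {M : Matroid α} {E A : Finset α} (hE : M.E = E) (hA : A ⊆ E) :
    rf M A + rf M (E \ A) = rf M E ↔
      M = (M ↾ (A : Set α)).disjointSum (M ＼ (A : Set α)) disjoint_sdiff_right := by
  have hAE : (A : Set α) ⊆ M.E := by rw [hE]; exact Finset.coe_subset.2 hA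
  constructor
  · intro h
    refine ext_indep ?_ ?_
    · simp only [disjointSum_ground_eq, restrict_ground_eq, delete_ground]
      rw [union_sdiff_cancel hAE]
    · intro I hI
      simp only [disjointSum_indep_iff, restrict_ground_eq, delete_ground, restrict_indep_iff,
        delete_indep_iff]
      constructor
      · intro hind
        refine ⟨⟨hind.subset inter_subset_left, inter_subset_right⟩,
          ⟨hind.subset inter_subset_left, ?_⟩, ?_⟩
        · rw [Set.disjoint_left]
          intro x hx
          exact hx.2.2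
        · rw [union_sdiff_cancel hAE]
          exact hI
      · rintro ⟨⟨h1, -⟩, ⟨h2, -⟩, -⟩
        have hIfin : I.Finite := (E.finite_toSet.subset (hE ▸ hI))
        lift I to Finset α using hIfin
        have hIE : I ⊆ E := by
          rw [hE] at hI
          exact Finset.coe_subset.1 hI
        have e1 : (I : Set α) ∩ (A : Set α) = ((I ∩ A : Finset α) : Set α) := by simp
        have e2 : (I : Set α) ∩ (M.E \ (A : Set α)) = ((I \ A : Finset α) : Set α) := by
          rw [hE]
          ext x
          simp only [Set.mem_inter_iff, Set.mem_sdiff, Finset.mem_coe, Finset.mem_sdiff]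
          constructor
          · rintro ⟨a, b, c⟩; exact ⟨a, c⟩
          · rintro ⟨a, c⟩; exact ⟨a, hIE a, c⟩
        rw [e1, indep_iff_rf] at h1
        rw [e2, indep_iff_rf] at h2
        rw [indep_iff_rf, sep_rank (isRk_rf M) hA h hIE, h1, h2]
        have := Finset.card_inter_add_card_sdiff I A
        exact_mod_cast this
  · intro h
    have hs := (isRk_rf M).su (U := E) A (E \ A) (by grind)
    refine le_antisymm ?_ hs
    obtain ⟨I, hI⟩ := M.exists_isBasis (A : Set α) hAE
    have hBE : ((E \ A : Finset α) : Set α) ⊆ M.E := by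
      rw [hE]; exact Finset.coe_subset.2 Finset.sdiff_subset
    obtain ⟨J, hJ⟩ := M.exists_isBasis ((E \ A : Finset α) : Set α) hBE
    have hdisj : Disjoint I J := by
      rw [Set.disjoint_left]
      intro x hx hx2
      have h1 := hI.subset hx
      have h2 := hJ.subset hx2
      simp only [Finset.mem_coe, Finset.mem_sdiff] at h1 h2
      exact h2.2 h1
    have hind : M.Indep (I ∪ J) := by
      rw [h, disjointSum_indep_iff]
      simp only [restrict_ground_eq, delete_ground, restrict_indep_iff, delete_indep_iff]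
      refine ⟨⟨hI.indep.subset ?_, inter_subset_right⟩, ⟨hJ.indep.subset ?_, ?_⟩, ?_⟩
      · rintro x ⟨hx | hx, hxA⟩
        · exact hx
        · have := hJ.subset hx
          simp only [Finset.mem_coe, Finset.mem_sdiff] at this
          exact absurd hxA this.2
      · rintro x ⟨hx | hx, hxA⟩
        · exact absurd (hI.subset hx) hxA.2
        · exact hx
      · rw [Set.disjoint_left]
        intro x hx
        exact hx.2.2
      · rw [union_sdiff_cancel hAE]
        exact union_subset (hI.subset.trans hAE) (hJ.subset.trans hBE)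
    have h1 : M.eRk A + M.eRk ((E \ A : Finset α) : Set α) ≤ M.eRk E := by
      rw [← hI.encard_eq_eRk, ← hJ.encard_eq_eRk, ← encard_union_eq hdisj]
      refine hind.encard_le_eRk_of_subset ?_
      rw [← hE]
      exact hind.subset_ground
    rw [← rk_fin, ← rk_fin, ← rk_fin] at h1
    have h2 : rk M A + rk M (E \ A : Finset α) ≤ rk M E := by exact_mod_cast h1
    simp only [rf]
    exact_mod_cast h2

lemma fac_iff {M M' : Matroid α} {E A : Finset α} (hE : M.E = E) (hE' : M'.E = E) :
    Fac E (rf M) (rf M') A ↔ IsFactor M M' A := by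
  constructor
  · rintro ⟨h1, h2, h3⟩
    exact ⟨by rw [hE]; exact Finset.coe_subset.2 h1, (sum_iff_rf hE h1).1 h2,
      (sum_iff_rf hE' h1).1 h3⟩
  · rintro ⟨h1, h2, h3⟩
    rw [hE, Finset.coe_subset] at h1
    exact ⟨h1, (sum_iff_rf hE h1).2 h2, (sum_iff_rf hE' h1).2 h3⟩

lemma conn_iff {M M' : Matroid α} {E : Finset α} (hE : M.E = E) (hE' : M'.E = E) :
    Conn E (rf M) (rf M') ↔ PConn M M' := by
  constructor
  · rintro ⟨h1, h2⟩
    refine ⟨by rw [hE]; exact_mod_cast h1, fun A hA hne => ?_⟩
    have hfin : A.Finite := E.finite_toSet.subset (hE ▸ hA.1)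
    lift A to Finset α using hfin
    rw [hE, h2 A ((fac_iff hE hE').2 hA) (by exact_mod_cast hne)]
  · rintro ⟨h1, h2⟩
    refine ⟨by rw [hE] at h1; exact_mod_cast h1, fun A hA hne => ?_⟩
    have := h2 A ((fac_iff hE hE').1 hA) (by exact_mod_cast hne)
    rw [hE] at this
    exact_mod_cast this

/-! ### The polynomial -/

lemma sg_sub {m n : ℕ} (h : n ≤ m) : ((-1 : ℤ)) ^ (m - n) = sg (m + n) := by
  have h1 : sg ((m : ℤ) + n) = sg ((m - n : ℕ) : ℤ) := by
    apply sg_eq n
    push_cast [h]
    ring
  rw [h1, sg, Int.negOnePow_def]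
  simp

lemma T_eq_tutte {M M' : Matroid α} {E : Finset α} (hE : M.E = E) :
    T E (rf M) (rf M') = tutte M M' 0 0 1 := by
  unfold T tutte
  have h1 : 𝒫 M.E = (fun X : Finset α => (X : Set α)) '' (E.powerset : Set (Finset α)) := by
    ext X
    simp only [Set.mem_powerset_iff, Set.mem_image, Finset.mem_coe, Finset.mem_powerset]
    constructor
    · intro h
      have hfin : X.Finite := E.finite_toSet.subset (hE ▸ h)
      lift X to Finset α using hfin
      rw [hE, Finset.coe_subset] at h
      exact ⟨X, h, rfl⟩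
    · rintro ⟨Y, hY, rfl⟩
      rw [hE]
      exact Finset.coe_subset.2 hY
  rw [h1, finsum_mem_image Finset.coe_injective.injOn, finsum_mem_coe_finset]
  refine Finset.sum_congr rfl fun X hX => ?_
  have hXE := Finset.mem_powerset.1 hX
  have a1 : rk M' (X : Set α) ≤ rk M' (E : Set α) := by
    have := (isRk_rf M').mono X E hXE
    simp only [rf] at this
    exact_mod_cast this
  have a2 : rk M (X : Set α) ≤ X.card := by
    have := rf_le_card M X
    simp only [rf] at this
    exact_mod_cast this
  rw [hE, ncard_coe_finset, one_pow, mul_one, zero_sub, sg_sub a1, sg_sub a2, ← sg_add]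
  congr 1
  simp only [rf]
  ring

end

end Pool.Agent.H.MP_321d0a_co
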