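import Pool.Agent.H.MP_321d0a_co.Uncross

/-!
# A zero factor of the deletion makes the contraction connected
-/

namespace Pool.Agent.H.MP_321d0a_co

open Finset

variable {α : Type*} [DecidableEq α]

/-- Common setting for the claim. -/
structure VSet (E : Finset α) (r r' : Finset α → ℤ) (e : α) (X : Finset α) : Prop where
  P : Persp r r'
  c : Conn E r r'
  he : e ∈ E
  k : r' E < r E
  a : r (E.erase e) = r E
  a' : r' (E.erase e) = r' E
  b : r {e} = 1
  b' : r' {e} = 1
  sub : X ⊆ E.erase e
  sep : r X + r (E.erase e \ X) = r E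
  sep' : r' X + r' (E.erase e \ X) = r' E
  ne : X.Nonempty
  z : r X = r' X

lemma VSet.zero {E : Finset α} {r r' : Finset α → ℤ} {e : α} {X : Finset α}
    (h : VSet E r r' e X) {Z : Finset α} (hZ : Z ⊆ X) : r Z = r' Z := by
  have h1 := h.P.d_mono hZ
  have h2 := h.P.d_nonneg Z
  have := h.z
  linarith

lemma VSet.yne {E : Finset α} {r r' : Finset α → ℤ} {e : α} {X : Finset α}
    (h : VSet E r r' e X) : (E.erase e \ X).Nonempty := by
  rw [Finset.nonempty_iff_ne_empty]
  intro hY
  have h1 := h.sep
  have h2 := h.sep'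
  rw [hY, h.P.rk.empty] at h1
  rw [hY, h.P.rk'.empty] at h2
  have := h.z
  have := h.k
  linarith

/-- `e` is independent of `Y` in both matroids. -/
lemma VSet.y {E : Finset α} {r r' : Finset α → ℤ} {e : α} {X : Finset α}
    (h : VSet E r r' e X) :
    r (insert e (E.erase e \ X)) = r (E.erase e \ X) + 1 ∧
      r' (insert e (E.erase e \ X)) = r' (E.erase e \ X) + 1 := by
  have he := h.he
  have hs := h.sub
  have u1 := h.P.rk.unit (E.erase e \ X) e
  have u2 := h.P.rk'.unit (E.erase e \ X) e
  have m1 := h.P.rk.mono (E.erase e \ X) (insert e (E.erase e \ X)) (by grind)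
  have m2 := h.P.rk'.mono (E.erase e \ X) (insert e (E.erase e \ X)) (by grind)
  have d1 := h.P.d_mono (X := insert e (E.erase e \ X)) (Y := E) (by grind)
  have d2 := h.P.d_mono (X := E.erase e \ X) (Y := insert e (E.erase e \ X)) (by grind)
  have hsep := h.sep
  have hsep' := h.sep'
  have hz := h.z
  have e3 : E \ X = insert e (E.erase e \ X) := by grind
  by_contra hcon
  refine h.c.contra h.P (A := X) (by grind) h.ne ⟨e, by grind⟩ ?_ ?_
  · rw [e3]; omega
  · rw [e3]; omega

/-- `e` is independent of `X` in `M`. -/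
lemma VSet.x {E : Finset α} {r r' : Finset α → ℤ} {e : α} {X : Finset α}
    (h : VSet E r r' e X) : r (insert e X) = r X + 1 := by
  have he := h.he
  have hs := h.sub
  have u1 := h.P.rk.unit X e
  have m1 := h.P.rk.mono X (insert e X) (by grind)
  have m2 := h.P.rk'.mono X (insert e X) (by grind)
  have l1 := h.P.le X (insert e X) (by grind)
  have hsep := h.sep
  have hsep' := h.sep'
  have e3 : E \ (E.erase e \ X) = insert e X := by grind
  by_contra hcon
  refine h.c.contra h.P (A := E.erase e \ X) (by grind) h.yne ⟨e, by grind⟩ ?_ ?_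
  · rw [e3]; omega
  · rw [e3]; omega

/-- Non-empty subsets of `X` are not separators of `M'`. -/
lemma VSet.lam {E : Finset α} {r r' : Finset α → ℤ} {e : α} {X : Finset α}
    (h : VSet E r r' e X) {Z : Finset α} (hZ : Z ⊆ X) (hne : Z.Nonempty) :
    r' E + 1 ≤ r' Z + r' (E \ Z) := by
  have he := h.he
  have hs := h.sub
  by_contra hcon
  have h1 := h.P.le (E \ Z) E (by grind)
  have h2 := h.zero hZ
  refine h.c.contra h.P (A := Z) (by grind) hne ⟨e, by grind⟩ (by linarith) (by linarith)

/-- First degenerate case. -/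
lemma VSet.aux1 {E : Finset α} {r r' : Finset α → ℤ} {e : α} {X : Finset α}
    (h : VSet E r r' e X) {C : Finset α} (hC : C ⊆ X) (hCne : C.Nonempty)
    (hX2 : (X \ C).Nonempty)
    (hs : r (insert e C) + r (insert e (E.erase e \ C)) ≤ r E + 1)
    (hs' : r' (insert e C) + r' (insert e (E.erase e \ C)) ≤ r' E + 1) : False := by
  have he := h.he
  have hX := h.sub
  have hCs : C ⊆ E.erase e := hC.trans hX
  have u1 := uncross h.P.rk he hX hCs
  have u1' := uncross h.P.rk' he hX hCs
  have e1 : X ∩ C = C := by grind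
  have e2 : (E.erase e \ X) ∩ (E.erase e \ C) = E.erase e \ X := by grind
  rw [e1, e2] at u1 u1'
  have hsep := h.sep
  have hsep' := h.sep'
  have l1 := h.lam hC hCne
  have l2 := h.lam (Z := X \ C) Finset.sdiff_subset hX2
  -- `Y` is a separator of `M'`
  have y' : r' (E.erase e \ X) + r' (E \ (E.erase e \ X)) ≤ r' E := by linarith
  have y1 : r E + 1 ≤ r (E.erase e \ X) + r (E \ (E.erase e \ X)) := by
    by_contra hcon
    exact h.c.contra h.P (A := E.erase e \ X) (by grind) h.yne ⟨e, by grind⟩ (by linarith) y'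
  have c1 : r C + r (E \ C) ≤ r E := by linarith
  have s1 := h.P.rk.su (U := E) C (E \ C) (by grind)
  have s1' := h.P.rk'.su (U := E) (E.erase e \ X) (E \ (E.erase e \ X)) (by grind)
  have c1' : r C + r (E \ C) = r E := le_antisymm c1 s1
  have y1' : r' (E.erase e \ X) + r' (E \ (E.erase e \ X)) = r' E := le_antisymm y' s1'
  have f1 := sep_rank h.P.rk (E := E) (A := C) (by grind) c1' (X := X) (by grind)
  have e4 : X ∩ C = C := by grind
  rw [e4] at f1
  have z1 := h.zero hC
  have z2 := h.zero (Z := X \ C) Finset.sdiff_subset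
  have z3 := h.z
  have hYs : E.erase e \ X ⊆ E := by grind
  have f2 := sep_rank h.P.rk' hYs y1' (X := insert e (E.erase e \ C)) (by grind)
  have e5 : insert e (E.erase e \ C) ∩ (E.erase e \ X) = E.erase e \ X := by grind
  have e6 : insert e (E.erase e \ C) \ (E.erase e \ X) = insert e (X \ C) := by grind
  rw [e5, e6] at f2
  have f3 := sep_rank h.P.rk' hYs y1' (X := E \ (X \ C)) (by grind)
  have e7 : (E \ (X \ C)) ∩ (E.erase e \ X) = E.erase e \ X := by grind
  have e8 : (E \ (X \ C)) \ (E.erase e \ X) = insert e C := by grind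
  rw [e7, e8] at f3
  have e9 : E \ C = insert e (E.erase e \ C) := by grind
  rw [e9] at l1
  linarith

/-- Second degenerate case. -/
lemma VSet.aux2 {E : Finset α} {r r' : Finset α → ℤ} {e : α} {X : Finset α}
    (h : VSet E r r' e X) {C : Finset α} (hC : X ⊆ C) (hCs : C ⊆ E.erase e)
    (hDne : (E.erase e \ C).Nonempty)
    (hs : r (insert e C) + r (insert e (E.erase e \ C)) ≤ r E + 1)
    (hs' : r' (insert e C) + r' (insert e (E.erase e \ C)) ≤ r' E + 1) : False := by
  have he := h.he
  have hX := h.sub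
  have u1 := uncross h.P.rk he hX hCs
  have u1' := uncross h.P.rk' he hX hCs
  have e1 : X ∩ C = X := by grind
  have e2 : (E.erase e \ X) ∩ (E.erase e \ C) = E.erase e \ C := by grind
  rw [e1, e2] at u1 u1'
  have hsep := h.sep
  have hsep' := h.sep'
  have l1 := h.lam subset_rfl h.ne
  have e3 : E \ X = insert e (E.erase e \ X) := by grind
  have hy := h.y.1
  rw [e3] at u1
  refine h.c.contra h.P (A := E.erase e \ C) (by grind) hDne ⟨e, by grind⟩ ?_ ?_
  · linarith
  · linarith

lemma VSet.main {E : Finset α} {r r' : Finset α → ℤ} {e : α} {X : Finset α}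
    (h : VSet E r r' e X) : Conn (E.erase e) (con r e) (con r' e) := by
  by_contra hn
  have he := h.he
  have hX := h.sub
  have hne : (E.erase e).Nonempty := h.ne.mono hX
  obtain ⟨C, hC, hCne, hDne⟩ := exists_fac hne hn
  have hCs := hC.sub
  have e2 : insert e (E.erase e) = E := Finset.insert_erase he
  have hs := hC.sep
  have hs' := hC.sep'
  have hb := h.b
  have hb' := h.b'
  simp only [con, e2, hb, hb'] at hs hs'
  have hs1 : r (insert e C) + r (insert e (E.erase e \ C)) ≤ r E + 1 := by linarith
  have hs1' : r' (insert e C) + r' (insert e (E.erase e \ C)) ≤ r' E + 1 := by linarith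
  have e3 : E.erase e \ (E.erase e \ C) = C := by grind
  have hDs : E.erase e \ C ⊆ E.erase e := Finset.sdiff_subset
  have hs2 : r (insert e (E.erase e \ C)) + r (insert e (E.erase e \ (E.erase e \ C)))
      ≤ r E + 1 := by rw [e3]; linarith
  have hs2' : r' (insert e (E.erase e \ C)) + r' (insert e (E.erase e \ (E.erase e \ C)))
      ≤ r' E + 1 := by rw [e3]; linarith
  by_cases hXC : X ∩ C = ∅
  · have hsub : X ⊆ E.erase e \ C := by
      intro x hx
      have : x ∉ X ∩ C := by rw [hXC]; simp
      grind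
    exact h.aux2 hsub hDs (by rwa [e3]) hs2 hs2'
  by_cases hXD : X ∩ (E.erase e \ C) = ∅
  · have hsub : X ⊆ C := by
      intro x hx
      have : x ∉ X ∩ (E.erase e \ C) := by rw [hXD]; simp
      grind
    exact h.aux2 hsub hCs hDne hs1 hs1'
  by_cases hYC : (E.erase e \ X) ∩ C = ∅
  · have hsub : C ⊆ X := by
      intro x hx
      have : x ∉ (E.erase e \ X) ∩ C := by rw [hYC]; simp
      grind
    have e4 : X ∩ (E.erase e \ C) = X \ C := by grind
    rw [e4, ← Ne.eq_def, ← Finset.nonempty_iff_ne_empty] at hXD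
    exact h.aux1 hsub hCne hXD hs1 hs1'
  by_cases hYD : (E.erase e \ X) ∩ (E.erase e \ C) = ∅
  · have hsub : E.erase e \ C ⊆ X := by
      intro x hx
      have : x ∉ (E.erase e \ X) ∩ (E.erase e \ C) := by rw [hYD]; simp
      grind
    have e4 : X ∩ C = X \ (E.erase e \ C) := by grind
    rw [e4, ← Ne.eq_def, ← Finset.nonempty_iff_ne_empty] at hXC
    exact h.aux1 hsub hDne hXC hs2 hs2'
  rw [← Ne.eq_def, ← Finset.nonempty_iff_ne_empty] at hXC hXD hYC hYD
  have u1 := uncross h.P.rk he hX hCs
  have u1' := uncross h.P.rk' he hX hCs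
  have u2 := uncross h.P.rk he hX hDs
  have u2' := uncross h.P.rk' he hX hDs
  rw [e3] at u2 u2'
  have l1 := h.lam (Z := X ∩ C) Finset.inter_subset_left hXC
  have l2 := h.lam (Z := X ∩ (E.erase e \ C)) Finset.inter_subset_left hXD
  have hsep := h.sep
  have hsep' := h.sep'
  have y1 : r E + 1 ≤ r ((E.erase e \ X) ∩ C) + r (E \ ((E.erase e \ X) ∩ C)) := by
    by_contra hcon
    exact h.c.contra h.P (A := (E.erase e \ X) ∩ C) (by grind) hYC ⟨e, by grind⟩
      (by linarith) (by linarith)
  have y2 : r E + 1 ≤ r ((E.erase e \ X) ∩ (E.erase e \ C)) +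
      r (E \ ((E.erase e \ X) ∩ (E.erase e \ C))) := by
    by_contra hcon
    exact h.c.contra h.P (A := (E.erase e \ X) ∩ (E.erase e \ C)) (by grind) hYD ⟨e, by grind⟩
      (by linarith) (by linarith)
  have w1 := h.P.rk.sm (U := E) (I := insert e (E.erase e \ X)) (E \ (X ∩ C))
    (E \ (X ∩ (E.erase e \ C))) (by grind) (by grind)
  have w2 := h.P.rk.su (U := X) (X ∩ C) (X ∩ (E.erase e \ C)) (by grind)
  have hy := h.y.1
  linarith

/-- A zero factor of the deletion makes the contraction connected. -/
lemma claimV1 {E : Finset α} {r r' : Finset α → ℤ} (hP : Persp r r')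
    (hc : Conn E r r') {e : α} (he : e ∈ E) (hk : r' E < r E)
    (ha : r (E.erase e) = r E) (hb : r' {e} = 1) {X : Finset α}
    (hX : Fac (E.erase e) r r' X) (hXne : X.Nonempty) (h0 : r X = r' X) :
    Conn (E.erase e) (con r e) (con r' e) := by
  have hne : (E.erase e).Nonempty := hXne.mono hX.sub
  have ha' := hc.no_coloop hP he hne
  refine VSet.main (X := X) ⟨hP, hc, he, hk, ha, ha', hc.no_loop hP he hne, hb, hX.sub, ?_, ?_,
    hXne, h0⟩
  · rw [← ha]; exact hX.sep
  · rw [← ha']; exact hX.sep'

/-- A zero factor of the contraction makes the deletion connected. -/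
lemma claimV2 {E : Finset α} {r r' : Finset α → ℤ} (hP : Persp r r')
    (hc : Conn E r r') {e : α} (he : e ∈ E) (hk : r' E < r E)
    (ha : r (E.erase e) = r E) (hb : r' {e} = 1) {X : Finset α}
    (hX : Fac (E.erase e) (con r e) (con r' e) X) (hXne : X.Nonempty)
    (h0 : con r e X = con r' e X) :
    Conn (E.erase e) r r' := by
  have hne : (E.erase e).Nonempty := hXne.mono hX.sub
  have ha' := hc.no_coloop hP he hne
  have hb0 := hc.no_loop hP he hne
  have e1 : E \ E.erase e = {e} := by grind
  have e2 : E \ {e} = E.erase e := by grind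
  have hcard : ((E.erase e).card : ℤ) = E.card - 1 := by
    rw [Finset.card_erase_of_mem he]
    have : 1 ≤ E.card := Finset.card_pos.2 ⟨e, he⟩
    push_cast [this]; ring
  have hF := hX.du (hP.con e)
  have hF2 : Fac (E.erase e) (du E r') (du E r) X :=
    hF.congr (fun Z hZ => du_con r' he hZ) (fun Z hZ => du_con r he hZ)
  have hdd := du_diff hX
  rw [du_con r' he hX.sub, du_con r he hX.sub] at hdd
  have htop := du_diff_top (E := E) hP
  have key := claimV1 (hP.du E) (hc.du hP) he (by linarith)
    (by simp only [du, e1, Finset.sdiff_self, hP.rk'.empty, hcard, hb]; linarith)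
    (by simp only [du, e2, ha, Finset.card_singleton]; push_cast; linarith)
    hF2 hXne (by linarith)
  have key2 : Conn (E.erase e) (du (E.erase e) r') (du (E.erase e) r) :=
    key.congr (fun Z hZ => con_du r' hZ) (fun Z hZ => con_du r hZ)
  exact Conn.of_du hP key2

end Pool.Agent.H.MP_321d0a_co
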