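import Pool.Agent.H.MP_321d0a_co.Basic

/-!
# Factors, connectedness, duality and the uncrossing claims
-/

namespace Pool.Agent.H.MP_321d0a_co

open Finset

variable {α : Type*} [DecidableEq α]

/-- `A` is a factor of the perspective on `E`. -/
structure Fac (E : Finset α) (r r' : Finset α → ℤ) (A : Finset α) : Prop where
  sub : A ⊆ E
  sep : r A + r (E \ A) = r E
  sep' : r' A + r' (E \ A) = r' E

/-- Connected: non-empty, and the whole ground set is the only non-empty factor. -/
structure Conn (E : Finset α) (r r' : Finset α → ℤ) : Prop where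
  ne : E.Nonempty
  fac : ∀ A, Fac E r r' A → A.Nonempty → A = E

/-- No non-empty factor on which the two matroids agree. -/
def NoZero (E : Finset α) (r r' : Finset α → ℤ) : Prop :=
  ∀ A, Fac E r r' A → A.Nonempty → r A ≠ r' A

/-- Dual rank function. -/
def du (E : Finset α) (r : Finset α → ℤ) : Finset α → ℤ :=
  fun A => A.card - r E + r (E \ A)

lemma Fac.compl {E : Finset α} {r r' : Finset α → ℤ} {A : Finset α} (h : Fac E r r' A) :
    Fac E r r' (E \ A) where
  sub := Finset.sdiff_subset
  sep := by
    have e1 : E \ (E \ A) = A := by have := h.sub; grind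
    rw [e1]; have := h.sep; linarith
  sep' := by
    have e1 : E \ (E \ A) = A := by have := h.sub; grind
    rw [e1]; have := h.sep'; linarith

lemma Fac.trans {E : Finset α} {r r' : Finset α → ℤ} (hP : Persp r r') {A B : Finset α}
    (h : Fac E r r' A) (h2 : Fac A r r' B) : Fac E r r' B where
  sub := h2.sub.trans h.sub
  sep := by
    have hA := h.sub
    have hB := h2.sub
    have h1 := sep_rank hP.rk hA h.sep (X := E \ B) Finset.sdiff_subset
    have e1 : (E \ B) ∩ A = A \ B := by grind
    have e2 : (E \ B) \ A = E \ A := by grind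
    rw [e1, e2] at h1
    have := h.sep
    have := h2.sep
    linarith
  sep' := by
    have hA := h.sub
    have hB := h2.sub
    have h1 := sep_rank hP.rk' hA h.sep' (X := E \ B) Finset.sdiff_subset
    have e1 : (E \ B) ∩ A = A \ B := by grind
    have e2 : (E \ B) \ A = E \ A := by grind
    rw [e1, e2] at h1
    have := h.sep'
    have := h2.sep'
    linarith

lemma Fac.congr {E : Finset α} {r r' s s' : Finset α → ℤ} (h : ∀ X, X ⊆ E → r X = s X)
    (h' : ∀ X, X ⊆ E → r' X = s' X) {A : Finset α} (hA : Fac E r r' A) : Fac E s s' A where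
  sub := hA.sub
  sep := by
    rw [← h A hA.sub, ← h _ Finset.sdiff_subset, ← h E subset_rfl]; exact hA.sep
  sep' := by
    rw [← h' A hA.sub, ← h' _ Finset.sdiff_subset, ← h' E subset_rfl]; exact hA.sep'

lemma Conn.congr {E : Finset α} {r r' s s' : Finset α → ℤ} (h : ∀ X, X ⊆ E → r X = s X)
    (h' : ∀ X, X ⊆ E → r' X = s' X) (hc : Conn E r r') : Conn E s s' where
  ne := hc.ne
  fac A hA hne := hc.fac A
    (hA.congr (fun X hX => (h X hX).symm) (fun X hX => (h' X hX).symm)) hne

lemma NoZero.congr {E : Finset α} {r r' s s' : Finset α → ℤ} (h : ∀ X, X ⊆ E → r X = s X)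
    (h' : ∀ X, X ⊆ E → r' X = s' X) (hc : NoZero E r r') : NoZero E s s' := by
  intro A hA hne
  rw [← h A hA.sub, ← h' A hA.sub]
  exact hc A (hA.congr (fun X hX => (h X hX).symm) (fun X hX => (h' X hX).symm)) hne

/-! ### Duality -/

lemma IsRk.card_le {r : Finset α → ℤ} (h : IsRk r) {X Y : Finset α} (hXY : X ⊆ Y) :
    r Y - r X ≤ Y.card - X.card := by
  have key : ∀ Z : Finset α, ∀ X : Finset α, r (X ∪ Z) - r X ≤ Z.card := by
    intro Z
    induction Z using Finset.induction_on with
    | empty => intro X; simp
    | insert a Z ha ih =>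
      intro X
      have h1 := ih X
      have h2 := h.unit (X ∪ Z) a
      have e1 : X ∪ insert a Z = insert a (X ∪ Z) := by grind
      rw [e1, Finset.card_insert_of_notMem ha]
      push_cast
      linarith
  have h1 := key (Y \ X) X
  have e1 : X ∪ (Y \ X) = Y := by grind
  rw [e1] at h1
  have h2 : (Y \ X).card = Y.card - X.card := Finset.card_sdiff_of_subset hXY
  have h3 : X.card ≤ Y.card := Finset.card_le_card hXY
  rw [h2] at h1
  push_cast [h3] at h1
  linarith

lemma IsRk.du {r : Finset α → ℤ} (h : IsRk r) (E : Finset α) : IsRk (du E r) where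
  empty := by simp [MP_321d0a_co.du]
  mono X Y hXY := by
    have h1 := h.card_le (X := E \ Y) (Y := E \ X) (by grind)
    have h2 : E \ X ⊆ (E \ Y) ∪ (Y \ X) := by grind
    have h3 := h.mono _ _ h2
    have h4 := h.card_le (X := E \ Y) (Y := (E \ Y) ∪ (Y \ X)) (by grind)
    have h5 : (((E \ Y) ∪ (Y \ X)).card : ℤ) ≤ (E \ Y).card + (Y \ X).card := by
      exact_mod_cast Finset.card_union_le _ _
    have h6 : (Y \ X).card = Y.card - X.card := Finset.card_sdiff_of_subset hXY
    have h7 : X.card ≤ Y.card := Finset.card_le_card hXY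
    have h8 : ((Y \ X).card : ℤ) = Y.card - X.card := by
      rw [h6]; push_cast [h7]; ring
    simp only [MP_321d0a_co.du]
    linarith
  unit X e := by
    have h1 := h.mono (E \ insert e X) (E \ X) (by grind)
    have h2 : ((insert e X).card : ℤ) ≤ X.card + 1 := by
      exact_mod_cast Finset.card_insert_le _ _
    simp only [MP_321d0a_co.du]
    linarith
  submod X Y := by
    have h1 := h.sm (U := E \ (X ∩ Y)) (I := E \ (X ∪ Y)) (E \ X) (E \ Y) (by grind) (by grind)
    have h2 : ((X ∪ Y).card : ℤ) + (X ∩ Y).card = X.card + Y.card := by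
      exact_mod_cast Finset.card_union_add_card_inter _ _
    simp only [MP_321d0a_co.du]
    linarith

lemma Persp.du {r r' : Finset α → ℤ} (h : Persp r r') (E : Finset α) :
    Persp (du E r') (du E r) where
  rk := h.rk'.du E
  rk' := h.rk.du E
  le X Y hXY := by
    have := h.le (E \ Y) (E \ X) (by grind)
    simp only [MP_321d0a_co.du]
    linarith

lemma du_du {r : Finset α → ℤ} (h : IsRk r) {E X : Finset α} (hX : X ⊆ E) :
    du E (du E r) X = r X := by
  have e1 : E \ (E \ X) = X := by grind
  have h2 : ((E \ X).card : ℤ) = E.card - X.card := by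
    rw [Finset.card_sdiff_of_subset hX]
    push_cast [Finset.card_le_card hX]; ring
  simp only [du, e1, Finset.sdiff_self, h.empty]
  linarith

/-- Deletion in the dual is the dual of the contraction. -/
lemma du_con (r : Finset α → ℤ) {E X : Finset α} {e : α} (he : e ∈ E)
    (hX : X ⊆ E.erase e) : du (E.erase e) (con r e) X = du E r X := by
  have e1 : insert e (E.erase e) = E := Finset.insert_erase he
  have e2 : insert e (E.erase e \ X) = E \ X := by grind
  simp only [du, con, e1, e2]
  ring

/-- Contraction in the dual is the dual of the deletion. -/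
lemma con_du (r : Finset α → ℤ) {E X : Finset α} {e : α}
    (hX : X ⊆ E.erase e) : con (du E r) e X = du (E.erase e) r X := by
  have e1 : E \ insert e X = E.erase e \ X := by grind
  have e2 : E \ {e} = E.erase e := by grind
  have e3 : e ∉ X := by grind
  simp only [du, con, e1, e2, Finset.card_insert_of_notMem e3, Finset.card_singleton]
  push_cast
  ring

lemma Fac.du {E : Finset α} {r r' : Finset α → ℤ} (hP : Persp r r') {A : Finset α}
    (h : Fac E r r' A) : Fac E (du E r') (du E r) A := by
  have hA := h.sub
  have e1 : E \ (E \ A) = A := by grind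
  have h2 : ((E \ A).card : ℤ) = E.card - A.card := by
    rw [Finset.card_sdiff_of_subset hA]
    push_cast [Finset.card_le_card hA]; ring
  refine ⟨hA, ?_, ?_⟩
  · have := h.sep'
    simp only [MP_321d0a_co.du, e1, Finset.sdiff_self, hP.rk'.empty]
    linarith
  · have := h.sep
    simp only [MP_321d0a_co.du, e1, Finset.sdiff_self, hP.rk.empty]
    linarith

lemma Fac.of_du {E : Finset α} {r r' : Finset α → ℤ} (hP : Persp r r') {A : Finset α}
    (h : Fac E (MP_321d0a_co.du E r') (MP_321d0a_co.du E r) A) : Fac E r r' A :=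
  (h.du (hP.du E)).congr (fun _ hX => du_du hP.rk hX) (fun _ hX => du_du hP.rk' hX)

lemma Conn.du {E : Finset α} {r r' : Finset α → ℤ} (hP : Persp r r')
    (h : Conn E r r') : Conn E (du E r') (du E r) where
  ne := h.ne
  fac A hA hne := h.fac A (Fac.of_du hP hA) hne

lemma Conn.of_du {E : Finset α} {r r' : Finset α → ℤ} (hP : Persp r r')
    (h : Conn E (MP_321d0a_co.du E r') (MP_321d0a_co.du E r)) : Conn E r r' where
  ne := h.ne
  fac A hA hne := h.fac A (hA.du hP) hne

lemma du_diff {E : Finset α} {r r' : Finset α → ℤ} {A : Finset α}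
    (h : Fac E r r' A) : du E r' A - du E r A = r A - r' A := by
  have := h.sep
  have := h.sep'
  simp only [du]
  linarith

lemma du_diff_top {E : Finset α} {r r' : Finset α → ℤ} (hP : Persp r r') :
    du E r' E - du E r E = r E - r' E := by
  simp only [du, Finset.sdiff_self, hP.rk.empty, hP.rk'.empty]
  linarith

lemma T_du {E : Finset α} {r r' : Finset α → ℤ} (hP : Persp r r') :
    T E (du E r') (du E r) = T E r r' := by
  unfold T
  refine Finset.sum_bij' (fun X _ => E \ X) (fun X _ => E \ X) ?_ ?_ ?_ ?_ ?_
  · intro X hX; simp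
  · intro X hX; simp
  · intro X hX; have := Finset.mem_powerset.1 hX; grind
  · intro X hX; have := Finset.mem_powerset.1 hX; grind
  · intro X hX
    have hXE := Finset.mem_powerset.1 hX
    have h2 : ((E \ X).card : ℤ) = E.card - X.card := by
      rw [Finset.card_sdiff_of_subset hXE]
      push_cast [Finset.card_le_card hXE]; ring
    simp only [du, Finset.sdiff_self, hP.rk.empty]
    rw [h2]
    apply sg_eq (2 * X.card - r E - r' E)
    ring

end Pool.Agent.H.MP_321d0a_co
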