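import Mathlib

/-!
# Matroid perspectives, their Tutte polynomial, and the extremal family
-/

namespace Pool.Agent.H.MP_321d0a_co

open Set Matroid

variable {α : Type*}

/-- The rank of the set `X` in `M`, as a natural number. -/
noncomputable def rk (M : Matroid α) (X : Set α) : ℕ := (M.eRk X).toNat

/-- `M → M'` is a matroid perspective: the ground sets agree and every flat of `M'` is a flat
of `M`. -/
def IsPersp (M M' : Matroid α) : Prop := M'.E = M.E ∧ ∀ F, M'.IsFlat F → M.IsFlat F

/-- The Tutte polynomial of the perspective `M → M'`, evaluated at integers. -/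
noncomputable def tutte (M M' : Matroid α) (x y z : ℤ) : ℤ :=
  ∑ᶠ X ∈ 𝒫 M.E, (x - 1) ^ (rk M' M.E - rk M' X) * (y - 1) ^ (X.ncard - rk M X) *
    z ^ ((rk M M.E - rk M' M.E) - (rk M X - rk M' X))

/-- `A` is a factor of `M → M'`: both matroids are the direct sum of their restriction to `A`
and of their deletion of `A`. -/
def IsFactor (M M' : Matroid α) (A : Set α) : Prop :=
  A ⊆ M.E ∧ M = (M ↾ A).disjointSum (M ＼ A) disjoint_sdiff_right ∧
    M' = (M' ↾ A).disjointSum (M' ＼ A) disjoint_sdiff_right

/-- `M → M'` is connected: the ground set is its only non-empty factor. -/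
def PConn (M M' : Matroid α) : Prop :=
  M.E.Nonempty ∧ ∀ A, IsFactor M M' A → A.Nonempty → A = M.E

/-- The extremal perspectives of rank difference `k`: built by parallel extensions (of `M`) and
series extensions (of `M'`) from a one-element perspective (for `k = 1`), from a circuit on
`k + 1` elements mapped to loops, or from a free matroid on `k + 1` elements mapped to the
uniform matroid of rank one (the matroid in which the ground set is a cocircuit). -/
inductive Extremal (k : ℕ) : Matroid α → Matroid α → Prop
  | point (e : α) (hk : k = 1) : Extremal k (freeOn {e}) (loopyOn {e})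
  | cycle (M : Matroid α) (hk : 1 ≤ k) (hE : M.E.encard = k + 1) (hM : M.IsCircuit M.E) :
      Extremal k M (loopyOn M.E)
  | star (M' : Matroid α) (hk : 1 ≤ k) (hE : M'.E.encard = k + 1)
      (hM' : M'.IsCocircuit M'.E) : Extremal k (freeOn M'.E) M'
  | parallel {M M' : Matroid α} {x y : α} (hP : IsPersp M M') (hxy : x ≠ y)
      (hC : M.IsCircuit {x, y}) (h : Extremal k (M ＼ {y}) (M' ＼ {y})) : Extremal k M M'
  | series {M M' : Matroid α} {x y : α} (hP : IsPersp M M') (hxy : x ≠ y)
      (hC : M'.IsCocircuit {x, y}) (h : Extremal k (M ／ {y}) (M' ／ {y})) : Extremal k M M'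

end Pool.Agent.H.MP_321d0a_co
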