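import Pool.Agent.H.MP_321d0a_co.Bridge

/-!
# The extremal family for matroids
-/

namespace Pool.Agent.H.MP_321d0a_co

open Set Matroid

variable {α : Type*} [DecidableEq α]

/-! ### Minors -/

omit [DecidableEq α] in
lemma eRk_contract (M : Matroid α) (C X : Set α) :
    (M ／ C).eRk X + M.eRk C = M.eRk (X ∪ C) := by
  obtain ⟨I, hI⟩ := M.exists_isBasis' C
  obtain ⟨J, hJ, hIJ⟩ := hI.indep.subset_isBasis'_of_subset
    (hI.subset.trans (subset_union_right (s := X)))
  have h1 : J ∩ C = I := by
    refine (hI.eq_of_subset_indep (hJ.indep.subset inter_subset_left)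
      (subset_inter hIJ hI.subset) inter_subset_right).symm
  have h2 : J \ C ∪ I = J := by
    rw [← h1, sdiff_union_inter]
  have h3 := hJ.contract_isBasis' hI (by rw [h2]; exact hJ.indep)
  have h4 : (M ／ C).eRk X = (M ／ C).eRk ((X ∪ C) \ C) := by
    rw [← eRk_inter_ground, ← eRk_inter_ground (M ／ C) ((X ∪ C) \ C)]
    congr 1
    rw [contract_ground]
    ext x
    simp only [Set.mem_inter_iff, Set.mem_sdiff, Set.mem_union]
    tauto
  rw [h4, ← h3.encard_eq_eRk, ← hI.encard_eq_eRk, ← hJ.encard_eq_eRk]
  rw [← h1, encard_sdiff_add_encard_inter]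

lemma rf_contract (M : Matroid α) (y : α) (X : Finset α) :
    rf (M ／ {y}) X = con (rf M) y X := by
  have h := eRk_contract M {y} X
  have e1 : (X : Set α) ∪ {y} = ((insert y X : Finset α) : Set α) := by
    rw [Finset.coe_insert, union_singleton]
  have e2 : ({y} : Set α) = (({y} : Finset α) : Set α) := by simp
  rw [e1, ← rk_fin, ← rk_fin M (insert y X)] at h
  rw [e2, ← rk_fin M {y}] at h
  have h2 : rk (M ／ (({y} : Finset α) : Set α)) X + rk M ({y} : Finset α) =
      rk M (insert y X : Finset α) := by exact_mod_cast h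
  rw [← e2] at h2
  simp only [rf, con]
  rw [← h2]
  push_cast
  simp

omit [DecidableEq α] in
lemma rf_delete (M : Matroid α) {y : α} {X : Finset α} (hX : y ∉ X) :
    rf (M ＼ {y}) X = rf M X := by
  have h : (M ＼ {y}).eRk X = M.eRk X := by
    rw [delete_eq_restrict, restrict_eRk_eq', ← eRk_inter_ground M X]
    congr 1
    ext x
    simp only [Set.mem_inter_iff, Finset.mem_coe, Set.mem_sdiff, Set.mem_singleton_iff]
    constructor
    · rintro ⟨h1, h2, -⟩; exact ⟨h1, h2⟩
    · rintro ⟨h1, h2⟩
      refine ⟨h1, h2, ?_⟩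
      rintro rfl
      exact hX h1
  rw [← rk_fin, ← rk_fin] at h
  have h2 : rk (M ＼ {y}) X = rk M X := by exact_mod_cast h
  simp only [rf, h2]

lemma ground_erase {M : Matroid α} {E : Finset α} (hE : M.E = E) (y : α) :
    (M ＼ {y}).E = (E.erase y : Finset α) := by
  rw [delete_ground, hE]; simp

lemma ground_erase' {M : Matroid α} {E : Finset α} (hE : M.E = E) (y : α) :
    (M ／ {y}).E = (E.erase y : Finset α) := by
  rw [contract_ground, hE]; simp

omit [DecidableEq α] in
lemma finite_of_ground {M : Matroid α} {E : Finset α} (hE : M.E = E) : M.Finite :=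
  ⟨by rw [hE]; exact E.finite_toSet⟩

lemma IsPersp.delete {M M' : Matroid α} {E : Finset α} (hE : M.E = E) (h : IsPersp M M')
    (y : α) : IsPersp (M ＼ {y}) (M' ＼ {y}) := by
  have hP := h.persp
  refine isPersp_of_persp (finite_of_ground (ground_erase hE y)) ?_ ?_
  · rw [delete_ground, delete_ground, h.1]
  · intro X e hX he
    rw [ground_erase hE y, Finset.coe_subset] at hX
    rw [ground_erase hE y, Finset.mem_coe] at he
    have h1 : y ∉ X := fun hy => Finset.notMem_erase y E (hX hy)
    have h2 : y ∉ insert e X := by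
      intro hy
      rcases Finset.mem_insert.1 hy with rfl | hy
      · exact Finset.notMem_erase _ E he
      · exact h1 hy
    rw [rf_delete M h1, rf_delete M h2, rf_delete M' h1, rf_delete M' h2]
    exact hP.le X (insert e X) (Finset.subset_insert _ _)

lemma IsPersp.contract {M M' : Matroid α} {E : Finset α} (hE : M.E = E) (h : IsPersp M M')
    (y : α) : IsPersp (M ／ {y}) (M' ／ {y}) := by
  have hP := h.persp
  refine isPersp_of_persp (finite_of_ground (ground_erase' hE y)) ?_ ?_
  · rw [contract_ground, contract_ground, h.1]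
  · intro X e hX he
    simp only [rf_contract]
    exact (hP.con y).le X (insert e X) (Finset.subset_insert _ _)

/-! ### The abstract family only depends on values on subsets -/

lemma SPr.congr {E : Finset α} {r r' : Finset α → ℤ} (h : SPr E r r') :
    ∀ {s s' : Finset α → ℤ}, (∀ X, X ⊆ E → r X = s X) → (∀ X, X ⊆ E → r' X = s' X) →
    SPr E s s' := by
  induction h with
  | point h h' =>
    intro s s' h1 h2
    exact SPr.point (by rw [← h1 _ subset_rfl]; exact h) (by rw [← h2 _ subset_rfl]; exact h')
  | @cyc E r r' h =>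
    intro s s' h1 h2
    obtain ⟨a, b, c, d⟩ := h
    refine SPr.cyc ⟨a, by rw [← h1 _ subset_rfl]; exact b, ?_, by
      rw [← h2 _ subset_rfl]; exact d⟩
    intro X hX
    rw [← h1 X hX.subset]
    exact c X hX
  | @star E r r' h =>
    intro s s' h1 h2
    obtain ⟨a, b, c, d⟩ := h
    refine SPr.star ⟨a, by rw [← h1 _ subset_rfl]; exact b, ?_, by
      rw [← h2 _ subset_rfl]; exact d⟩
    intro e he
    rw [← h2 _ (by simpa using he)]
    exact c e he
  | @par E r r' x y h _ ih =>
    intro s s' h1 h2
    obtain ⟨a, b, c, d, e, f⟩ := h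
    refine SPr.par (x := x) (y := y) ⟨a, b, c, ?_, ?_, ?_⟩ (ih ?_ ?_)
    · rw [← h1 _ (by simpa using b)]; exact d
    · rw [← h1 _ (by simpa using c)]; exact e
    · rw [← h1 _ (by
        intro z hz
        rcases Finset.mem_insert.1 hz with rfl | hz
        · exact b
        · rw [Finset.mem_singleton] at hz; subst hz; exact c)]
      exact f
    · exact fun X hX => h1 X (hX.trans (Finset.erase_subset _ _))
    · exact fun X hX => h2 X (hX.trans (Finset.erase_subset _ _))
  | @ser E r r' x y h _ ih =>
    intro s s' h1 h2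
    obtain ⟨a, b, c, d, e, f⟩ := h
    have hins : ∀ X, X ⊆ E.erase y → insert y X ⊆ E := by
      intro X hX z hz
      rcases Finset.mem_insert.1 hz with rfl | hz
      · exact c
      · exact (Finset.erase_subset _ _) (hX hz)
    refine SPr.ser (x := x) (y := y) ⟨a, b, c, ?_, ?_, ?_⟩ (ih ?_ ?_)
    · rw [← h2 _ (Finset.erase_subset _ _), ← h2 _ subset_rfl]; exact d
    · rw [← h2 _ (Finset.erase_subset _ _), ← h2 _ subset_rfl]; exact e
    · rw [← h2 _ Finset.sdiff_subset, ← h2 _ subset_rfl]; exact f
    · intro X hX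
      simp only [con]
      rw [h1 _ (hins X hX), h1 {y} (by simpa using c)]
    · intro X hX
      simp only [con]
      rw [h2 _ (hins X hX), h2 {y} (by simpa using c)]

/-! ### Pairs -/

lemma par_of_circuit {M : Matroid α} {E : Finset α} (hE : M.E = E) {x y : α} (hxy : x ≠ y)
    (h : M.IsCircuit {x, y}) : Par E (rf M) x y := by
  have hsub := h.subset_ground
  have e1 : ({x, y} : Set α) = (({x, y} : Finset α) : Set α) := by simp
  rw [e1] at h hsub
  have hx : x ∈ E := by
    have : x ∈ (E : Set α) := by rw [← hE]; exact hsub (by simp)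
    exact this
  have hy : y ∈ E := by
    have : y ∈ (E : Set α) := by rw [← hE]; exact hsub (by simp)
    exact this
  obtain ⟨h1, h2⟩ := (isCircuit_iff_rf hsub ⟨x, by simp⟩).1 h
  rw [Finset.card_pair hxy] at h1
  have h3 := h2 {x} (by
    rw [Finset.ssubset_iff_subset_ne]
    refine ⟨by simp, fun h => hxy ?_⟩
    have : y ∈ ({x} : Finset α) := by rw [h]; simp
    exact (Finset.mem_singleton.1 this).symm)
  have h4 := h2 {y} (by
    rw [Finset.ssubset_iff_subset_ne]
    refine ⟨by simp, fun h => hxy ?_⟩
    have : x ∈ ({y} : Finset α) := by rw [h]; simp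
    exact (Finset.mem_singleton.1 this))
  refine ⟨hxy, hx, hy, by simpa using h3, by simpa using h4, ?_⟩
  rw [h1]; norm_num

lemma circuit_of_par {M : Matroid α} {E : Finset α} (hE : M.E = E) {x y : α}
    (h : Par E (rf M) x y) : M.IsCircuit {x, y} := by
  obtain ⟨a, b, c, d, e, f⟩ := h
  have e1 : ({x, y} : Set α) = (({x, y} : Finset α) : Set α) := by simp
  have hsub : (({x, y} : Finset α) : Set α) ⊆ M.E := by
    rw [hE, Finset.coe_subset]
    intro z hz
    rcases Finset.mem_insert.1 hz with rfl | hz
    · exact b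
    · rw [Finset.mem_singleton] at hz; subst hz; exact c
  rw [e1, isCircuit_iff_rf hsub ⟨x, by simp⟩]
  refine ⟨by rw [f, Finset.card_pair a]; norm_num, ?_⟩
  intro X hX
  have hX2 : X = ∅ ∨ X = {x} ∨ X = {y} := by
    rw [Finset.ssubset_iff_subset_ne] at hX
    by_cases hx : x ∈ X <;> by_cases hy : y ∈ X
    · exfalso
      apply hX.2
      apply Finset.Subset.antisymm hX.1
      intro z hz
      rcases Finset.mem_insert.1 hz with rfl | hz
      · exact hx
      · rw [Finset.mem_singleton] at hz; subst hz; exact hy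
    · right; left
      ext z
      rw [Finset.mem_singleton]
      constructor
      · intro hz
        rcases Finset.mem_insert.1 (hX.1 hz) with h | h
        · exact h
        · rw [Finset.mem_singleton] at h; subst h; exact absurd hz hy
      · rintro rfl; exact hx
    · right; right
      ext z
      rw [Finset.mem_singleton]
      constructor
      · intro hz
        rcases Finset.mem_insert.1 (hX.1 hz) with h | h
        · subst h; exact absurd hz hx
        · rwa [Finset.mem_singleton] at h
      · rintro rfl; exact hy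
    · left
      rw [Finset.eq_empty_iff_forall_notMem]
      intro z hz
      rcases Finset.mem_insert.1 (hX.1 hz) with h | h
      · subst h; exact hx hz
      · rw [Finset.mem_singleton] at h; subst h; exact hy hz
  rcases hX2 with rfl | rfl | rfl
  · simp [(isRk_rf M).empty]
  · simpa using d
  · simpa using e

lemma par_congr {E : Finset α} {r s : Finset α → ℤ} (h1 : ∀ X, X ⊆ E → r X = s X) {x y : α}
    (h : Par E r x y) : Par E s x y := by
  obtain ⟨a, b, c, d, e, f⟩ := h
  refine ⟨a, b, c, ?_, ?_, ?_⟩
  · rw [← h1 _ (by simpa using b)]; exact d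
  · rw [← h1 _ (by simpa using c)]; exact e
  · rw [← h1 _ (by
      intro z hz
      rcases Finset.mem_insert.1 hz with rfl | hz
      · exact b
      · rw [Finset.mem_singleton] at hz; subst hz; exact c)]
    exact f

lemma ser_of_cocircuit {M : Matroid α} {E : Finset α} (hE : M.E = E) {x y : α} (hxy : x ≠ y)
    (h : M.IsCocircuit {x, y}) : Ser E (rf M) x y := by
  have h1 : Par E (rf M✶) x y := par_of_circuit (by rw [dual_ground, hE]) hxy h
  exact (par_congr (fun X hX => rf_dual hE hX) h1).to_ser

lemma cocircuit_of_ser {M : Matroid α} {E : Finset α} (hE : M.E = E) {x y : α}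
    (h : Ser E (rf M) x y) : M.IsCocircuit {x, y} := by
  have h1 : Par E (rf M✶) x y := par_congr (fun X hX => (rf_dual hE hX).symm) h.du
  exact circuit_of_par (by rw [dual_ground, hE]) h1

/-! ### From the abstract family to the matroid family -/

omit [DecidableEq α] in
lemma eq_freeOn {M : Matroid α} {E : Finset α} (hE : M.E = E) (h : rf M E = E.card) :
    M = freeOn (E : Set α) := by
  have h1 : M.Indep E := indep_iff_rf.2 h
  rw [← hE] at h1 ⊢
  exact (ground_indep_iff_eq_freeOn).1 h1

omit [DecidableEq α] in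
lemma eq_loopyOn {M : Matroid α} {E : Finset α} (hE : M.E = E) (h : rf M E = 0) :
    M = loopyOn (E : Set α) := by
  rw [eq_loopyOn_iff_eRank, eRank_def, hE, ← rk_fin]
  simp only [rf] at h
  refine ⟨?_, rfl⟩
  have : rk M (E : Set α) = 0 := by exact_mod_cast h
  rw [this]; simp

theorem to_extremal {E : Finset α} {r r' : Finset α → ℤ} (h : SPr E r r') :
    ∀ {M M' : Matroid α} {k : ℕ}, M.E = E → IsPersp M M' → (∀ X, X ⊆ E → r X = rf M X) →
    (∀ X, X ⊆ E → r' X = rf M' X) → rf M E - rf M' E = k → Extremal k M M' := by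
  induction h with
  | @point e r r' h h' =>
    intro M M' k hE hP h1 h2 hk
    have hE' : M'.E = (({e} : Finset α) : Set α) := by rw [hP.1, hE]
    rw [h1 _ subset_rfl] at h
    rw [h2 _ subset_rfl] at h'
    rw [h, h'] at hk
    have hk1 : k = 1 := by push_cast at hk; omega
    have e1 := eq_freeOn hE (by rw [h]; simp)
    have e2 := eq_loopyOn hE' h'
    rw [e1, e2]
    simp only [Finset.coe_singleton]
    exact Extremal.point e hk1
  | @cyc E r r' h =>
    intro M M' k hE hP h1 h2 hk
    have hE' : M'.E = (E : Set α) := by rw [hP.1, hE]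
    obtain ⟨a, b, c, d⟩ := h
    rw [h1 _ subset_rfl] at b
    rw [h2 _ subset_rfl] at d
    rw [b, d] at hk
    have e2 := eq_loopyOn hE' d
    have hcirc : M.IsCircuit M.E := by
      rw [hE, isCircuit_iff_rf (by rw [hE]) (Finset.card_pos.1 (by omega))]
      refine ⟨b, fun X hX => ?_⟩
      rw [← h1 X hX.subset]
      exact c X hX
    have hcard : E.card = k + 1 := by omega
    rw [e2, ← hE]
    refine Extremal.cycle M (by omega) ?_ hcirc
    rw [hE, encard_coe_eq_coe_finsetCard, hcard]
    push_cast; rfl
  | @star E r r' h =>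
    intro M M' k hE hP h1 h2 hk
    have hE' : M'.E = (E : Set α) := by rw [hP.1, hE]
    obtain ⟨a, b, c, d⟩ := h
    rw [h1 _ subset_rfl] at b
    rw [h2 _ subset_rfl] at d
    rw [b, d] at hk
    have e1 := eq_freeOn hE b
    have hcard : E.card = k + 1 := by omega
    have hcyc : Cyc E (du E (rf M')) (du E (rf M)) := by
      refine Star.du hP.persp ⟨a, b, ?_, d⟩
      intro e he
      rw [← h2 _ (by simpa using he)]
      exact c e he
    have hco : M'.IsCocircuit M'.E := by
      rw [isCocircuit_def, hE', isCircuit_iff_rf (by rw [dual_ground, hE'])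
        (Finset.card_pos.1 (by omega))]
      refine ⟨?_, fun X hX => ?_⟩
      · rw [rf_dual hE' subset_rfl]; exact hcyc.2.1
      · rw [rf_dual hE' hX.subset]; exact hcyc.2.2.1 X hX
    rw [e1, ← hE']
    refine Extremal.star M' (by omega) ?_ hco
    rw [hE', encard_coe_eq_coe_finsetCard, hcard]
    push_cast; rfl
  | @par E r r' x y h _ ih =>
    intro M M' k hE hP h1 h2 hk
    have hp := par_congr h1 h
    have hr := hp.rank hP.persp
    refine Extremal.parallel hP hp.1 (circuit_of_par hE hp)
      (ih (ground_erase hE y) (hP.delete hE y) ?_ ?_ ?_)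
    · intro X hX
      have hy : y ∉ X := fun hy => Finset.notMem_erase y E (hX hy)
      rw [rf_delete M hy, h1 X (hX.trans (Finset.erase_subset _ _))]
    · intro X hX
      have hy : y ∉ X := fun hy => Finset.notMem_erase y E (hX hy)
      rw [rf_delete M' hy, h2 X (hX.trans (Finset.erase_subset _ _))]
    · rw [rf_delete M (Finset.notMem_erase y E), rf_delete M' (Finset.notMem_erase y E)]
      linarith
  | @ser E r r' x y h _ ih =>
    intro M M' k hE hP h1 h2 hk
    have hE' : M'.E = (E : Set α) := by rw [hP.1, hE]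
    have hp : Ser E (rf M') x y := by
      obtain ⟨a, b, c, d, e, f⟩ := h
      refine ⟨a, b, c, ?_, ?_, ?_⟩
      · rw [← h2 _ (Finset.erase_subset _ _), ← h2 _ subset_rfl]; exact d
      · rw [← h2 _ (Finset.erase_subset _ _), ← h2 _ subset_rfl]; exact e
      · rw [← h2 _ Finset.sdiff_subset, ← h2 _ subset_rfl]; exact f
    have hy : y ∈ E := hp.2.2.1
    have hins : ∀ X, X ⊆ E.erase y → insert y X ⊆ E := by
      intro X hX z hz
      rcases Finset.mem_insert.1 hz with rfl | hz
      · exact hy
      · exact (Finset.erase_subset _ _) (hX hz)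
    have hr := hp.rank hP.persp
    refine Extremal.series hP hp.1 (cocircuit_of_ser hE' hp)
      (ih (ground_erase' hE y) (hP.contract hE y) ?_ ?_ ?_)
    · intro X hX
      rw [rf_contract]
      simp only [con]
      rw [h1 _ (hins X hX), h1 {y} (by simpa using hy)]
    · intro X hX
      rw [rf_contract]
      simp only [con]
      rw [h2 _ (hins X hX), h2 {y} (by simpa using hy)]
    · rw [rf_contract, rf_contract, hr]
      exact hk

/-! ### Back from the matroid family -/

omit [DecidableEq α] in
lemma rf_freeOn {E X : Finset α} (h : X ⊆ E) : rf (freeOn (E : Set α)) X = X.card := by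
  rw [← indep_iff_rf, freeOn_indep_iff]
  exact Finset.coe_subset.2 h

omit [DecidableEq α] in
lemma rf_loopyOn {E X : Finset α} : rf (loopyOn (E : Set α)) X = 0 := by
  have h := eRk_loopyOn (X : Set α) (E : Set α)
  rw [← rk_fin] at h
  have h2 : rk (loopyOn (E : Set α)) X = 0 := by exact_mod_cast h
  simp only [rf, h2]; rfl

omit [DecidableEq α] in
lemma isPersp_free {M' : Matroid α} : IsPersp (freeOn M'.E) M' :=
  ⟨rfl, fun F hF => by
    rw [isFlat_iff_closure_eq, freeOn_closure_eq]
    exact inter_eq_self_of_subset_left hF.subset_ground⟩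

omit [DecidableEq α] in
lemma isPersp_loopy {M : Matroid α} : IsPersp M (loopyOn M.E) :=
  ⟨rfl, fun F hF => by
    have h1 : F = M.E := by
      rw [isFlat_iff_closure_eq, loopyOn_closure_eq] at hF
      exact hF.symm
    rw [h1]
    exact M.ground_isFlat⟩

theorem from_extremal {k : ℕ} {M M' : Matroid α} (h : Extremal k M M') :
    ∀ {E : Finset α}, M.E = E → IsPersp M M' ∧ SPr E (rf M) (rf M') ∧
      rf M E - rf M' E = k := by
  induction h with
  | point e hk =>
    intro E hE
    have hE2 : E = {e} := by
      rw [freeOn_ground] at hE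
      have : (({e} : Finset α) : Set α) = (E : Set α) := by simpa using hE
      exact (Finset.coe_injective this).symm
    subst hE2
    have e1 : ({e} : Set α) = (({e} : Finset α) : Set α) := by simp
    rw [e1]
    have a1 : rf (freeOn (({e} : Finset α) : Set α)) {e} = 1 := by
      rw [rf_freeOn subset_rfl]; simp
    have a2 : rf (loopyOn (({e} : Finset α) : Set α)) {e} = 0 := rf_loopyOn
    refine ⟨isPersp_free (M' := loopyOn (({e} : Finset α) : Set α)), SPr.point a1 a2, ?_⟩
    rw [a1, a2, hk]; norm_num
  | cycle M hk hE' hM =>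
    intro E hE
    have hcard : E.card = k + 1 := by
      rw [hE, encard_coe_eq_coe_finsetCard] at hE'
      exact_mod_cast hE'
    rw [hE] at hM
    obtain ⟨c1, c2⟩ := (isCircuit_iff_rf (by rw [hE]) (Finset.card_pos.1 (by omega))).1 hM
    have hl : rf (loopyOn M.E) E = 0 := by rw [hE]; exact rf_loopyOn
    refine ⟨isPersp_loopy, SPr.cyc ⟨by omega, c1, c2, hl⟩, ?_⟩
    rw [c1, hl, hcard]; push_cast; ring
  | star M' hk hE' hM' =>
    intro E hE
    rw [freeOn_ground] at hE
    have hcard : E.card = k + 1 := by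
      rw [hE, encard_coe_eq_coe_finsetCard] at hE'
      exact_mod_cast hE'
    rw [isCocircuit_def, hE] at hM'
    obtain ⟨c1, c2⟩ := (isCircuit_iff_rf (by rw [dual_ground, hE])
      (Finset.card_pos.1 (by omega))).1 hM'
    rw [rf_dual hE subset_rfl, du_top (isRk_rf M')] at c1
    have hf : rf (freeOn M'.E) E = E.card := by rw [hE]; exact rf_freeOn subset_rfl
    have h1 : rf M' E = 1 := by linarith
    refine ⟨isPersp_free, SPr.star ⟨by omega, hf, ?_, h1⟩, ?_⟩
    · intro e he
      have c3 := c2 (E.erase e) (Finset.erase_ssubset he)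
      rw [rf_dual hE (Finset.erase_subset _ _), du_erase _ he, card_erase_int he] at c3
      linarith
    · rw [hf, h1, hcard]; push_cast; ring
  | @parallel M M' x y hP hxy hC _ ih =>
    intro E hE
    have hp := par_of_circuit hE hxy hC
    have hr := hp.rank hP.persp
    obtain ⟨i1, i2, i3⟩ := ih (ground_erase hE y)
    have hdel : ∀ (N : Matroid α) (X : Finset α), X ⊆ E.erase y → rf (N ＼ {y}) X = rf N X := by
      intro N X hX
      exact rf_delete N (fun hy => Finset.notMem_erase y E (hX hy))
    refine ⟨hP, SPr.par hp (i2.congr (hdel M) (hdel M')), ?_⟩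
    rw [hdel M _ subset_rfl, hdel M' _ subset_rfl] at i3
    linarith
  | @series M M' x y hP hxy hC _ ih =>
    intro E hE
    have hE' : M'.E = (E : Set α) := by rw [hP.1, hE]
    have hp := ser_of_cocircuit hE' hxy hC
    have hr := hp.rank hP.persp
    obtain ⟨i1, i2, i3⟩ := ih (ground_erase' hE y)
    refine ⟨hP, SPr.ser hp (i2.congr (fun X _ => rf_contract M y X)
      (fun X _ => rf_contract M' y X)), ?_⟩
    rw [rf_contract, rf_contract, hr] at i3
    exact i3

/-! ### An example for every rank difference -/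

/-- The rank one matroid on `Fin (k + 1)` without loops. -/
noncomputable def rankOne (k : ℕ) : Matroid (Fin (k + 1)) :=
  (freeOn (univ : Set Unit)).comap (fun _ => ())

lemma rankOne_ground (k : ℕ) : (rankOne k).E = univ := by
  simp [rankOne]

lemma rankOne_rf (k : ℕ) {X : Finset (Fin (k + 1))} (hX : X.Nonempty) :
    rf (rankOne k) X = 1 := by
  have h1 : (rankOne k).eRk (X : Set (Fin (k + 1))) = 1 := by
    unfold rankOne
    rw [eRk_comap]
    have h2 : (fun _ : Fin (k + 1) => ()) '' (X : Set (Fin (k + 1))) = {()} := by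
      obtain ⟨x, hx⟩ := hX
      ext u
      constructor
      · intro _; exact Set.mem_singleton_iff.2 rfl
      · intro _
        exact ⟨x, hx, rfl⟩
    rw [h2, eRk_freeOn (subset_univ _), encard_singleton]
  rw [← rk_fin] at h1
  have h2 : rk (rankOne k) (X : Set (Fin (k + 1))) = 1 := by exact_mod_cast h1
  simp only [rf, h2]; rfl

theorem example_ext (k : ℕ) : ∃ M M' : Matroid (Fin (k + 1)), M.Finite ∧ IsPersp M M' ∧
    PConn M M' ∧ rk M M.E = rk M' M.E + k ∧ tutte M M' 0 0 1 = 2 ^ (k + 1) - 2 := by
  classical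
  have hcoe : ((Finset.univ : Finset (Fin (k + 1))) : Set (Fin (k + 1))) = univ := by simp
  have hE' : (rankOne k).E = ((Finset.univ : Finset (Fin (k + 1))) : Set (Fin (k + 1))) := by
    rw [rankOne_ground, hcoe]
  have hE : (freeOn (rankOne k).E).E =
      ((Finset.univ : Finset (Fin (k + 1))) : Set (Fin (k + 1))) := by
    rw [freeOn_ground, hE']
  have hP : IsPersp (freeOn (rankOne k).E) (rankOne k) := isPersp_free
  have h1 : rf (freeOn (rankOne k).E) Finset.univ = k + 1 := by
    rw [hE', rf_freeOn subset_rfl]; simp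
  have h2 : rf (rankOne k) Finset.univ = 1 := rankOne_rf k Finset.univ_nonempty
  have hrk : rk (freeOn (rankOne k).E) (freeOn (rankOne k).E).E =
      rk (rankOne k) (freeOn (rankOne k).E).E + k := by
    rw [hE]
    simp only [rf] at h1 h2
    have h3 : rk (freeOn (rankOne k).E)
        ((Finset.univ : Finset (Fin (k + 1))) : Set (Fin (k + 1))) = k + 1 := by
      exact_mod_cast h1
    have h4 : rk (rankOne k)
        ((Finset.univ : Finset (Fin (k + 1))) : Set (Fin (k + 1))) = 1 := by
      exact_mod_cast h2
    rw [h3, h4]; ring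
  refine ⟨freeOn (rankOne k).E, rankOne k, finite_of_ground hE, hP, ?_, hrk, ?_⟩
  · rw [← conn_iff hE hE']
    rcases Nat.eq_zero_or_pos k with rfl | hk
    · have e1 : (Finset.univ : Finset (Fin (0 + 1))) = {0} := by
        decide
      rw [e1]
      exact conn_singleton
    · refine Star.conn hP.persp ⟨by simp; omega, ?_, ?_, h2⟩
      · rw [h1]; simp
      · intro e _
        exact rankOne_rf k ⟨e, by simp⟩
  · rw [← T_eq_tutte hE]
    rcases Nat.eq_zero_or_pos k with rfl | hk
    · rw [T_zero_of_eq hP.persp Finset.univ_nonempty (by rw [h1, h2]; norm_num)]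
      norm_num
    · rw [Star.T hP.persp ⟨by simp; omega, by rw [h1]; simp, fun e _ =>
        rankOne_rf k ⟨e, by simp⟩, h2⟩]
      simp

/-! ### The main results -/

omit [DecidableEq α] in
theorem main_bound {M M' : Matroid α} {k : ℕ} (hfin : M.Finite) (hP : IsPersp M M')
    (hc : PConn M M') (hk : rk M M.E = rk M' M.E + k) :
    (2 : ℤ) ^ (k + 1) - 2 ≤ tutte M M' 0 0 1 := by
  classical
  obtain ⟨E, hE⟩ := hfin.ground_finite.exists_finset_coe
  have hE0 : M.E = E := hE.symm
  have hE' : M'.E = (E : Set α) := by rw [hP.1, hE0]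
  have hc2 := (conn_iff hE0 hE').2 hc
  rw [← T_eq_tutte hE0]
  refine bound hP.persp hc2 ?_
  rw [hE0] at hk
  simp only [rf, hk]
  push_cast; ring

omit [DecidableEq α] in
theorem main_class {M M' : Matroid α} {k : ℕ} (hfin : M.Finite) (hk1 : 1 ≤ k) :
    (IsPersp M M' ∧ PConn M M' ∧ rk M M.E = rk M' M.E + k ∧
      tutte M M' 0 0 1 = 2 ^ (k + 1) - 2) ↔ Extremal k M M' := by
  classical
  obtain ⟨E, hE⟩ := hfin.ground_finite.exists_finset_coe
  have hE0 : M.E = E := hE.symm
  constructor
  · rintro ⟨hP, hc, hk, hT⟩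
    have hE' : M'.E = (E : Set α) := by rw [hP.1, hE0]
    have hc2 := (conn_iff hE0 hE').2 hc
    rw [← T_eq_tutte hE0] at hT
    rw [hE0] at hk
    have hk2 : rf M E - rf M' E = k := by
      simp only [rf, hk]
      push_cast; ring
    exact to_extremal (SPr_of_extremal E.card E _ _ k rfl hP.persp hc2 hk2 hk1 hT.le)
      hE0 hP (fun _ _ => rfl) (fun _ _ => rfl) hk2
  · intro h
    obtain ⟨hP, hs, hk2⟩ := from_extremal h hE0
    have hE' : M'.E = (E : Set α) := by rw [hP.1, hE0]
    obtain ⟨hc, j, hj, hkj, hT⟩ := extremal_of_SPr hP.persp hs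
    have hjk : j = k := by
      rw [hkj] at hk2
      exact_mod_cast hk2
    subst hjk
    refine ⟨hP, (conn_iff hE0 hE').1 hc, ?_, ?_⟩
    · rw [hE0]
      simp only [rf] at hk2
      have : (rk M (E : Set α) : ℤ) = ((rk M' (E : Set α) + j : ℕ) : ℤ) := by
        push_cast; linarith
      exact_mod_cast this
    · rw [← T_eq_tutte hE0]; exact hT

omit [DecidableEq α] in
theorem main_zero {M M' : Matroid α} (hfin : M.Finite) :
    (IsPersp M M' ∧ PConn M M' ∧ rk M M.E = rk M' M.E + 0 ∧
      tutte M M' 0 0 1 = 2 ^ (0 + 1) - 2) ↔ M' = M ∧ PConn M M := by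
  classical
  obtain ⟨E, hE⟩ := hfin.ground_finite.exists_finset_coe
  have hE0 : M.E = E := hE.symm
  constructor
  · rintro ⟨hP, hc, hk, -⟩
    have hMM : M' = M := by
      refine ext_indep hP.1 fun I hI => ?_
      have hE' : M'.E = (E : Set α) := by rw [hP.1, hE0]
      have hfin' : I.Finite := E.finite_toSet.subset (hE' ▸ hI)
      lift I to Finset α using hfin'
      have hIE : I ⊆ E := by
        rw [hE'] at hI
        exact Finset.coe_subset.1 hI
      rw [indep_iff_rf, indep_iff_rf]
      have h1 := hP.persp.d_mono hIE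
      have h2 := hP.persp.d_nonneg I
      have h3 : rf M E = rf M' E := by
        simp only [rf]
        rw [hE0] at hk
        rw [hk]; simp
      have h4 : rf M I = rf M' I := by linarith
      rw [h4]
    exact ⟨hMM, by rwa [hMM] at hc⟩
  · rintro ⟨rfl, hc⟩
    refine ⟨⟨rfl, fun _ h => h⟩, hc, rfl, ?_⟩
    have hP : IsPersp M' M' := ⟨rfl, fun _ h => h⟩
    rw [← T_eq_tutte hE0, T_zero_of_eq hP.persp (by
      have := hc.1
      rw [hE0] at this
      exact_mod_cast this) rfl]
    norm_num

end Pool.Agent.H.MP_321d0a_co
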