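import Pool.Agent.H.MP_321d0a_co.Pairs

/-!
# Finding a parallel or series pair in an extremal perspective
-/

namespace Pool.Agent.H.MP_321d0a_co

open Finset

variable {α : Type*} [DecidableEq α]

/-- For every regular element, the deletion or the contraction is not connected. -/
def Ext (E : Finset α) (r r' : Finset α → ℤ) : Prop :=
  ∀ a ∈ E, r (E.erase a) = r E → r' {a} = 1 →
    ¬ (Conn (E.erase a) r r' ∧ Conn (E.erase a) (con r a) (con r' a))

lemma Ext.du {E : Finset α} {r r' : Finset α → ℤ} (hP : Persp r r') (h : Ext E r r') :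
    Ext E (du E r') (du E r) := by
  intro a ha h1 h2 h3
  rw [du_erase r' ha, du_top hP.rk'] at h1
  rw [du_singleton] at h2
  rw [conn_del_du hP ha, conn_con_du hP] at h3
  exact h a ha (by linarith) (by linarith) ⟨h3.2, h3.1⟩

lemma exists_fac_avoid {E : Finset α} {r r' : Finset α → ℤ} {e : α} (hne : E.Nonempty)
    (hc : ¬ Conn E r r') : ∃ A, Fac E r r' A ∧ A.Nonempty ∧ (E \ A).Nonempty ∧ e ∉ A := by
  obtain ⟨A, hA, hAne, hBne⟩ := exists_fac hne hc
  by_cases he : e ∈ A
  · have hAs := hA.sub
    have e1 : E \ (E \ A) = A := by grind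
    exact ⟨E \ A, hA.compl, hBne, by rwa [e1], by grind⟩
  · exact ⟨A, hA, hAne, hBne, he⟩

theorem find_pair : ∀ (n : ℕ) (E : Finset α) (r r' : Finset α → ℤ) (e : α) (X : Finset α),
    X.card = n → VSet E r r' e X → Ext E r r' →
    (∃ x y, Par E r x y) ∨ (∃ x y, Ser E r' x y) := by
  intro n
  induction n using Nat.strong_induction_on with
  | _ n ih =>
  intro E r r' e X hXn h hExt
  obtain ⟨a, ha⟩ := h.ne
  have he := h.he
  have hX := h.sub
  have haE : a ∈ E := by grind
  have hae : a ≠ e := by grind
  have hnea : (E.erase a).Nonempty := ⟨e, by grind⟩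
  have hnee : (E.erase e).Nonempty := ⟨a, by grind⟩
  have hP := h.P
  have hc := h.c
  have hsep := h.sep
  have hsep' := h.sep'
  have hca' := hc.no_coloop hP haE hnea
  have z0 := h.z
  have z1 := h.zero (Z := X.erase a) (Finset.erase_subset _ _)
  have z2 := h.zero (Z := {a}) (by simpa using ha)
  have ula := hP.rk.unit (X.erase a) a
  rw [Finset.insert_erase ha] at ula
  have mla := hP.rk.mono (X.erase a) X (Finset.erase_subset _ _)
  have hla := hc.no_loop hP haE hnea
  by_cases hiso : r (X.erase a) = r X - 1
  · -- a series pair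
    right
    refine ⟨a, e, hae, haE, he, hca', h.a', ?_⟩
    have s1 := hP.rk'.su (U := E \ {a, e}) (X.erase a) (E.erase e \ X) (by grind)
    have s2 := hP.rk'.unit (E \ {a, e}) e
    have e1 : insert e (E \ {a, e}) = E.erase a := by grind
    rw [e1] at s2
    linarith
  have hiso' : r (X.erase a) = r X := by omega
  have z3 : r' (X.erase a) = r' X := by linarith
  -- `a` is regular
  have hra : r (E.erase a) = r E := by
    have s1 := hP.rk.sm (U := E) (I := X.erase a) (E.erase a) X (by grind) (by grind)
    have s2 := hP.rk.mono (E.erase a) E (Finset.erase_subset _ _)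
    linarith
  have hra' : r' {a} = 1 := by linarith
  have hnot := hExt a haE hra hra'
  -- rank additivity across `X` and `Y`
  have add : ∀ ρ : Finset α → ℤ, IsRk ρ → ρ X + ρ (E.erase e \ X) = ρ (E.erase e) →
      ∀ W, W ⊆ E.erase e → ρ W = ρ (W ∩ X) + ρ (W \ X) := by
    intro ρ hρ hs W hW
    exact sep_rank hρ hX hs hW
  have hs1 : r X + r (E.erase e \ X) = r (E.erase e) := by rw [h.a]; exact hsep
  have hs1' : r' X + r' (E.erase e \ X) = r' (E.erase e) := by rw [h.a']; exact hsep'
  rcases not_and_or.1 hnot with hn | hn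
  · -- the deletion of `a` is not connected
    obtain ⟨W, hW, hWne, hVne, heW⟩ := exists_fac_avoid (e := e) hnea hn
    have hWs := hW.sub
    by_cases hZ : X ∩ W = ∅
    · exfalso
      have hXW : X.erase a ⊆ E.erase a \ W := by
        intro x hx
        have : x ∉ X ∩ W := by rw [hZ]; simp
        grind
      have t1 : ∀ ρ : Finset α → ℤ, IsRk ρ → ρ (X.erase a) = ρ X →
          ρ (insert a (E.erase a \ W)) ≤ ρ (E.erase a \ W) := by
        intro ρ hρ h1
        have m1 := hρ.mono (X.erase a) (X ∩ (E.erase a \ W)) (by grind)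
        have s1 := hρ.submod X (E.erase a \ W)
        have m2 := hρ.mono (insert a (E.erase a \ W)) (X ∪ (E.erase a \ W)) (by grind)
        linarith
      have e1 : E \ W = insert a (E.erase a \ W) := by grind
      have q1 := hW.sep
      have q2 := hW.sep'
      refine hc.contra hP (A := W) (by grind) hWne ⟨e, by grind⟩ ?_ ?_
      · rw [e1]; have := t1 r hP.rk hiso'; linarith
      · rw [e1]; have := t1 r' hP.rk' z3; linarith
    · rw [← Ne.eq_def, ← Finset.nonempty_iff_ne_empty] at hZ
      have hZs : X ∩ W ⊆ E.erase a := by grind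
      have t1 : ∀ ρ : Finset α → ℤ, IsRk ρ → ρ X + ρ (E.erase e \ X) = ρ (E.erase e) →
          ρ W + ρ (E.erase a \ W) = ρ (E.erase a) →
          ρ (X ∩ W) + ρ (E.erase a \ (X ∩ W)) = ρ (E.erase a) := by
        intro ρ hρ h1 h2
        have a1 := add ρ hρ h1 W (by grind)
        have e1 : W ∩ X = X ∩ W := by grind
        rw [e1] at a1
        have s1 := hρ.sm (U := E.erase a \ (X ∩ W)) (I := (E.erase e \ X) \ W)
          (E.erase a \ W) (E.erase e \ X) (by grind) (by grind)
        have s2 := hρ.su (U := E.erase e \ X) ((E.erase e \ X) \ W) (W \ X) (by grind)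
        have s3 := hρ.su (U := E.erase a) (X ∩ W) (E.erase a \ (X ∩ W)) (by grind)
        linarith
      have f1 := t1 r hP.rk hs1 hW.sep
      have f1' := t1 r' hP.rk' hs1' hW.sep'
      have hcard : (X ∩ W).card < X.card := Finset.card_lt_card
        (Finset.ssubset_iff_subset_ne.2 ⟨Finset.inter_subset_left, by
          intro hh
          have : a ∈ X ∩ W := by rw [hh]; exact ha
          grind⟩)
      refine ih (X ∩ W).card (by omega) E r r' a (X ∩ W) rfl
        ⟨hP, hc, haE, h.k, hra, hca', hla, hra', hZs, ?_, ?_, hZ,
          h.zero Finset.inter_subset_left⟩ hExt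
      · rw [← hra]; exact f1
      · rw [← hca']; exact f1'
  · -- the contraction of `a` is not connected
    obtain ⟨W, hW, hWne, hVne, heW⟩ := exists_fac_avoid (e := e) hnea hn
    have hWs := hW.sub
    have q1 := hW.sep
    have q2 := hW.sep'
    have e0 : insert a (E.erase a) = E := Finset.insert_erase haE
    simp only [con, e0, hla, hra'] at q1 q2
    by_cases hZ : X ∩ W = ∅
    · exfalso
      have t1 : ∀ ρ : Finset α → ℤ, IsRk ρ → ρ X + ρ (E.erase e \ X) = ρ (E.erase e) →
          ρ {a} = 1 → ρ (insert a W) = ρ W + 1 := by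
        intro ρ hρ h1 h2
        have a1 := add ρ hρ h1 (insert a W) (by grind)
        have hWX : ∀ x ∈ W, x ∉ X := by
          intro x hx hxX
          have : x ∈ X ∩ W := Finset.mem_inter.2 ⟨hxX, hx⟩
          rw [hZ] at this
          simp at this
        have e1 : insert a W ∩ X = {a} := by
          ext x
          simp only [Finset.mem_inter, Finset.mem_insert, Finset.mem_singleton]
          constructor
          · rintro ⟨rfl | hx, hxX⟩
            · rfl
            · exact absurd hxX (hWX x hx)
          · rintro rfl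
            exact ⟨Or.inl rfl, ha⟩
        have e2 : insert a W \ X = W := by
          ext x
          simp only [Finset.mem_sdiff, Finset.mem_insert]
          constructor
          · rintro ⟨rfl | hx, hxX⟩
            · exact absurd ha hxX
            · exact hx
          · intro hx
            exact ⟨Or.inr hx, hWX x hx⟩
        rw [e1, e2] at a1
        linarith
      have e1 : E \ W = insert a (E.erase a \ W) := by grind
      refine hc.contra hP (A := W) (by grind) hWne ⟨e, by grind⟩ ?_ ?_
      · rw [e1]; have := t1 r hP.rk hs1 hla; linarith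
      · rw [e1]; have := t1 r' hP.rk' hs1' hra'; linarith
    · rw [← Ne.eq_def, ← Finset.nonempty_iff_ne_empty] at hZ
      have hZs : X ∩ W ⊆ E.erase a := by grind
      have t1 : ∀ ρ : Finset α → ℤ, IsRk ρ → ρ X + ρ (E.erase e \ X) = ρ (E.erase e) →
          ρ {a} = 1 →
          ρ (insert a W) + ρ (insert a (E.erase a \ W)) = ρ E + 1 →
          ρ (insert a (X ∩ W)) + ρ (insert a (E.erase a \ (X ∩ W))) = ρ E + 1 := by
        intro ρ hρ h1 h0 h2
        have a1 := add ρ hρ h1 (insert a W) (by grind)
        have e1 : insert a W ∩ X = insert a (X ∩ W) := by grind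
        have e2 : insert a W \ X = W \ X := by grind
        rw [e1, e2] at a1
        have s1 := hρ.sm (U := insert a (E.erase a \ (X ∩ W))) (I := (E.erase e \ X) \ W)
          (insert a (E.erase a \ W)) (E.erase e \ X) (by grind) (by grind)
        have s2 := hρ.su (U := E.erase e \ X) ((E.erase e \ X) \ W) (W \ X) (by grind)
        have s3 := hρ.sm (U := E) (I := {a}) (insert a (X ∩ W))
          (insert a (E.erase a \ (X ∩ W))) (by grind) (by grind)
        linarith
      have f1 := t1 r hP.rk hs1 hla (by linarith)
      have f1' := t1 r' hP.rk' hs1' hra' (by linarith)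
      have hF : Fac (E.erase a) (con r a) (con r' a) (X ∩ W) := by
        refine ⟨hZs, ?_, ?_⟩
        · simp only [con, e0, hla]; linarith
        · simp only [con, e0, hra']; linarith
      have hz : con r a (X ∩ W) = con r' a (X ∩ W) := by
        have := h.zero (Z := insert a (X ∩ W)) (by grind)
        simp only [con, this, hla, hra']
      have hdd := du_diff hF
      have hFd : Fac (E.erase a) (du E r') (du E r) (X ∩ W) :=
        (hF.du (hP.con a)).congr (fun Z hZ => du_con r' haE hZ) (fun Z hZ => du_con r haE hZ)
      rw [du_con r' haE hZs, du_con r haE hZs] at hdd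
      have hdz : du E r' (X ∩ W) = du E r (X ∩ W) := by linarith
      have htop := du_diff_top (E := E) hP
      have hk := h.k
      have hcard : (X ∩ W).card < X.card := Finset.card_lt_card
        (Finset.ssubset_iff_subset_ne.2 ⟨Finset.inter_subset_left, by
          intro hh
          have : a ∈ X ∩ W := by rw [hh]; exact ha
          grind⟩)
      have g1 : du E r' (E.erase a) = du E r' E := by
        rw [du_erase r' haE, du_top hP.rk', hra']; ring
      have g2 : du E r (E.erase a) = du E r E := by
        rw [du_erase r haE, du_top hP.rk, hla]; ring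
      have g3 : du E r' {a} = 1 := by
        rw [du_singleton, hca']; ring
      have g4 : du E r {a} = 1 := by
        rw [du_singleton, hra]; ring
      have := ih (X ∩ W).card (by omega) E (du E r') (du E r) a (X ∩ W) rfl
        ⟨hP.du E, hc.du hP, haE, by linarith, g1, g2, g3, g4, hZs,
          by rw [← g1]; exact hFd.sep, by rw [← g2]; exact hFd.sep', hZ, hdz⟩ (hExt.du hP)
      rcases this with ⟨x, y, hxy⟩ | ⟨x, y, hxy⟩
      · exact Or.inr ⟨x, y, hxy.to_ser⟩
      · exact Or.inl ⟨x, y, hxy.to_par hP.rk⟩

end Pool.Agent.H.MP_321d0a_co
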