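import Pool.Agent.H.MP_321d0a_co.Bound

/-!
# Parallel and series pairs; the two extremal base families
-/

namespace Pool.Agent.H.MP_321d0a_co

open Finset

variable {α : Type*} [DecidableEq α]

/-- `x`, `y` are a parallel pair. -/
def Par (E : Finset α) (r : Finset α → ℤ) (x y : α) : Prop :=
  x ≠ y ∧ x ∈ E ∧ y ∈ E ∧ r {x} = 1 ∧ r {y} = 1 ∧ r {x, y} = 1

/-- `x`, `y` are a series pair. -/
def Ser (E : Finset α) (r : Finset α → ℤ) (x y : α) : Prop :=
  x ≠ y ∧ x ∈ E ∧ y ∈ E ∧ r (E.erase x) = r E ∧ r (E.erase y) = r E ∧ r (E \ {x, y}) = r E - 1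

/-- `M` is a circuit with at least two elements and `M'` consists of loops. -/
def Cyc (E : Finset α) (r r' : Finset α → ℤ) : Prop :=
  2 ≤ E.card ∧ r E = E.card - 1 ∧ (∀ X, X ⊂ E → r X = X.card) ∧ r' E = 0

/-- `M` is free with at least two elements and `M'` is `U_{1,E}`. -/
def Star (E : Finset α) (r r' : Finset α → ℤ) : Prop :=
  2 ≤ E.card ∧ r E = E.card ∧ (∀ e ∈ E, r' {e} = 1) ∧ r' E = 1

lemma card_erase_int {E : Finset α} {e : α} (he : e ∈ E) :
    ((E.erase e).card : ℤ) = E.card - 1 := by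
  rw [Finset.card_erase_of_mem he]
  have : 1 ≤ E.card := Finset.card_pos.2 ⟨e, he⟩
  push_cast [this]; ring

lemma card_sdiff_pair {E : Finset α} {x y : α} (hxy : x ≠ y) (hx : x ∈ E) (hy : y ∈ E) :
    ((E \ {x, y}).card : ℤ) = E.card - 2 := by
  have hsub : ({x, y} : Finset α) ⊆ E := by
    intro z hz
    simp only [Finset.mem_insert, Finset.mem_singleton] at hz
    rcases hz with rfl | rfl <;> assumption
  have h2 : ({x, y} : Finset α).card = 2 := Finset.card_pair hxy
  have h3 := Finset.card_le_card hsub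
  rw [Finset.card_sdiff_of_subset hsub]
  push_cast [h3]
  rw [h2]; norm_num

lemma du_singleton {E : Finset α} (r : Finset α → ℤ) (x : α) :
    du E r {x} = 1 - r E + r (E.erase x) := by
  have e1 : E \ {x} = E.erase x := by grind
  simp [du, e1]

lemma du_erase {E : Finset α} (r : Finset α → ℤ) {x : α} (hx : x ∈ E) :
    du E r (E.erase x) = E.card - 1 - r E + r {x} := by
  have e1 : E \ E.erase x = {x} := by grind
  simp only [du, e1, card_erase_int hx]

lemma du_top {E : Finset α} {r : Finset α → ℤ} (hr : IsRk r) :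
    du E r E = E.card - r E := by
  simp [du, hr.empty]

lemma Par.to_ser {E : Finset α} {r : Finset α → ℤ} {x y : α}
    (h : Par E (du E r) x y) : Ser E r x y := by
  obtain ⟨h1, h2, h3, h4, h5, h6⟩ := h
  rw [du_singleton] at h4 h5
  refine ⟨h1, h2, h3, by linarith, by linarith, ?_⟩
  simp only [du, Finset.card_pair h1] at h6
  push_cast at h6
  linarith

lemma Ser.to_par {E : Finset α} {r : Finset α → ℤ} (hr : IsRk r) {x y : α}
    (h : Ser E (du E r) x y) : Par E r x y := by
  obtain ⟨h1, h2, h3, h4, h5, h6⟩ := h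
  rw [du_erase r h2, du_top hr] at h4
  rw [du_erase r h3, du_top hr] at h5
  refine ⟨h1, h2, h3, by linarith, by linarith, ?_⟩
  rw [du_top hr] at h6
  have e1 : E \ (E \ {x, y}) = {x, y} := by grind
  simp only [du, e1, card_sdiff_pair h1 h2 h3] at h6
  linarith

lemma Ser.du {E : Finset α} {r : Finset α → ℤ} {x y : α}
    (h : Ser E r x y) : Par E (du E r) x y := by
  obtain ⟨h1, h2, h3, h4, h5, h6⟩ := h
  refine ⟨h1, h2, h3, ?_, ?_, ?_⟩
  · rw [du_singleton]; linarith
  · rw [du_singleton]; linarith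
  · simp only [MP_321d0a_co.du, Finset.card_pair h1]
    push_cast
    linarith

lemma Star.to_cyc {E : Finset α} {r r' : Finset α → ℤ} (hP : Persp r r')
    (h : Star E (du E r') (du E r)) : Cyc E r r' := by
  obtain ⟨h1, h2, h3, h4⟩ := h
  rw [du_top hP.rk'] at h2
  rw [du_top hP.rk] at h4
  refine ⟨h1, by linarith, ?_, by linarith⟩
  intro X hX
  obtain ⟨hXE, hne⟩ := Finset.ssubset_iff_subset_ne.1 hX
  have : ∃ e ∈ E, e ∉ X := by
    by_contra hcon
    apply hne
    apply Finset.Subset.antisymm hXE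
    intro e he
    by_contra heX
    exact hcon ⟨e, he, heX⟩
  obtain ⟨e, he, heX⟩ := this
  have h5 := h3 e he
  rw [du_singleton] at h5
  have hXe : X ⊆ E.erase e := by grind
  have h6 := hP.rk.card_le hXe
  have h7 := hP.rk.card_le (Finset.empty_subset X)
  rw [hP.rk.empty] at h7
  simp only [Finset.card_empty] at h7
  push_cast at h7
  rw [card_erase_int he] at h6
  linarith

lemma Star.du {E : Finset α} {r r' : Finset α → ℤ} (hP : Persp r r')
    (h : Star E r r') : Cyc E (du E r') (du E r) := by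
  obtain ⟨h1, h2, h3, h4⟩ := h
  refine ⟨h1, ?_, ?_, ?_⟩
  · rw [du_top hP.rk', h4]
  · intro X hX
    obtain ⟨hXE, hne⟩ := Finset.ssubset_iff_subset_ne.1 hX
    have : ∃ e ∈ E, e ∉ X := by
      by_contra hcon
      apply hne
      apply Finset.Subset.antisymm hXE
      intro e he
      by_contra heX
      exact hcon ⟨e, he, heX⟩
    obtain ⟨e, he, heX⟩ := this
    have h5 := h3 e he
    have m1 := hP.rk'.mono {e} (E \ X) (by
      intro z hz
      rw [Finset.mem_singleton] at hz
      subst hz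
      exact Finset.mem_sdiff.2 ⟨he, heX⟩)
    have m2 := hP.rk'.mono (E \ X) E Finset.sdiff_subset
    simp only [MP_321d0a_co.du]
    linarith
  · rw [du_top hP.rk, h2]; ring

/-! ### Parallel pairs -/

lemma Par.facts {E : Finset α} {r r' : Finset α → ℤ} (hP : Persp r r') {x y : α}
    (h : Par E r x y) {X : Finset α} (hx : x ∈ X) :
    r (insert y X) = r X ∧ r' (insert y X) = r' X := by
  obtain ⟨h1, h2, h3, h4, h5, h6⟩ := h
  have s1 := hP.rk.submod X {x, y}
  have e1 : X ∪ {x, y} = insert y X := by grind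
  have m0 := hP.rk.mono {x} (X ∩ {x, y}) (by
    intro z hz
    rw [Finset.mem_singleton] at hz
    subst hz
    simp [hx])
  rw [e1] at s1
  have m1 := hP.rk.mono X (insert y X) (Finset.subset_insert _ _)
  have m2 := hP.rk'.mono X (insert y X) (Finset.subset_insert _ _)
  have l1 := hP.le X (insert y X) (Finset.subset_insert _ _)
  constructor <;> linarith

lemma Par.rank {E : Finset α} {r r' : Finset α → ℤ} (hP : Persp r r') {x y : α}
    (h : Par E r x y) : r (E.erase y) = r E ∧ r' (E.erase y) = r' E := by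
  have h1 := h.1
  have h2 := h.2.1
  have h3 := h.2.2.1
  have := h.facts hP (X := E.erase y) (by grind)
  rw [Finset.insert_erase h3] at this
  exact ⟨this.1.symm, this.2.symm⟩

lemma Par.T {E : Finset α} {r r' : Finset α → ℤ} (hP : Persp r r') {x y : α}
    (h : Par E r x y) : T E r r' = T (E.erase y) r r' := by
  have hr := h.rank hP
  obtain ⟨h1, h2, h3, h4, h5, h6⟩ := h
  rw [T_delcon h3 hr.2 h5]
  have h0 : con r y {x} = 0 := by
    have e1 : insert y ({x} : Finset α) = {x, y} := by grind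
    simp only [con, e1, h5, h6]; norm_num
  rw [T_zero_of_loop (hP.con y) (e := x) (by grind) h0]
  ring

lemma Par.conn {E : Finset α} {r r' : Finset α → ℤ} (hP : Persp r r') {x y : α}
    (h : Par E r x y) (hc : Conn E r r') : Conn (E.erase y) r r' := by
  have hr := h.rank hP
  have hf := fun X hx => h.facts hP (X := X) hx
  obtain ⟨h1, h2, h3, h4, h5, h6⟩ := h
  have hne : (E.erase y).Nonempty := ⟨x, by grind⟩
  by_contra hn
  obtain ⟨A, hA, hAne, hBne⟩ := exists_fac hne hn
  -- normalise: `x ∈ A`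
  have key : ∀ A, Fac (E.erase y) r r' A → x ∈ A → (E.erase y \ A).Nonempty → False := by
    intro A hA hxA hBne
    have hAs := hA.sub
    have f1 := hf A hxA
    have s1 := hA.sep
    have s2 := hA.sep'
    have e1 : E \ (E.erase y \ A) = insert y A := by grind
    refine hc.contra hP (A := E.erase y \ A) (by grind) hBne ⟨y, by grind⟩ ?_ ?_
    · rw [e1, f1.1]; linarith
    · rw [e1, f1.2]; linarith
  by_cases hxA : x ∈ A
  · exact key A hA hxA hBne
  · have hAs := hA.sub
    have e1 : E.erase y \ (E.erase y \ A) = A := by grind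
    exact key _ hA.compl (by grind) (by rwa [e1])

lemma Par.conn_of {E : Finset α} {r r' : Finset α → ℤ} (hP : Persp r r') {x y : α}
    (h : Par E r x y) (hc : Conn (E.erase y) r r') : Conn E r r' := by
  have hr := h.rank hP
  obtain ⟨h1, h2, h3, h4, h5, h6⟩ := h
  have hne : E.Nonempty := ⟨x, h2⟩
  by_contra hn
  obtain ⟨A, hA, hAne, hBne⟩ := exists_fac hne hn
  have key : ∀ A, Fac E r r' A → y ∉ A → A.Nonempty → False := by
    intro A hA hyA hAne
    have hAs := hA.sub
    have s1 := hA.sep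
    have s2 := hA.sep'
    have f1 := sep_rank hP.rk hAs s1 (X := E.erase y) (Finset.erase_subset _ _)
    have f2 := sep_rank hP.rk' hAs s2 (X := E.erase y) (Finset.erase_subset _ _)
    have e1 : E.erase y ∩ A = A := by grind
    rw [e1] at f1 f2
    have hA2 : A = E.erase y := hc.fac A ⟨by grind, f1.symm, f2.symm⟩ hAne
    have e2 : E \ A = {y} := by rw [hA2]; grind
    rw [e2, h5, hA2] at s1
    linarith [hr.1]
  by_cases hyA : y ∈ A
  · have hAs := hA.sub
    exact key _ hA.compl (by grind) hBne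
  · exact key A hA hyA hAne

/-! ### Duality for minors -/

lemma conn_del_du {E : Finset α} {r r' : Finset α → ℤ} (hP : Persp r r') {a : α} (ha : a ∈ E) :
    Conn (E.erase a) (du E r') (du E r) ↔ Conn (E.erase a) (con r a) (con r' a) := by
  constructor
  · intro h
    apply Conn.of_du (hP.con a)
    exact h.congr (fun Z hZ => (du_con r' ha hZ).symm) (fun Z hZ => (du_con r ha hZ).symm)
  · intro h
    exact (h.du (hP.con a)).congr (fun Z hZ => du_con r' ha hZ) (fun Z hZ => du_con r ha hZ)

lemma conn_con_du {E : Finset α} {r r' : Finset α → ℤ} (hP : Persp r r') {a : α} :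
    Conn (E.erase a) (con (du E r') a) (con (du E r) a) ↔ Conn (E.erase a) r r' := by
  constructor
  · intro h
    apply Conn.of_du hP
    exact h.congr (fun Z hZ => con_du r' hZ) (fun Z hZ => con_du r hZ)
  · intro h
    exact (h.du hP).congr (fun Z hZ => (con_du r' hZ).symm) (fun Z hZ => (con_du r hZ).symm)

/-! ### Series pairs -/

lemma Ser.y1 {E : Finset α} {r r' : Finset α → ℤ} (hP : Persp r r') {x y : α}
    (h : Ser E r' x y) : r {y} = 1 ∧ r' {y} = 1 := by
  obtain ⟨h1, h2, h3, h4, h5, h6⟩ := h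
  have s1 := hP.rk'.su (U := E.erase x) {y} (E \ {x, y}) (by grind)
  have s2 := hP.rk'.singleton_le y
  have s3 := hP.rk.singleton_le y
  have s4 := hP.d_nonneg {y}
  constructor <;> linarith

lemma Ser.rank {E : Finset α} {r r' : Finset α → ℤ} (hP : Persp r r') {x y : α}
    (h : Ser E r' x y) : con r y (E.erase y) - con r' y (E.erase y) = r E - r' E := by
  have := h.y1 hP
  rw [con_diff h.2.2.1, this.1, this.2]; ring

lemma Ser.T {E : Finset α} {r r' : Finset α → ℤ} (hP : Persp r r') {x y : α}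
    (h : Ser E r' x y) : T E r r' = T (E.erase y) (con r y) (con r' y) := by
  have hp := h.du
  have h1 := hp.T (hP.du E)
  rw [T_du hP] at h1
  rw [h1, ← T_du (hP.con y)]
  exact T_congr (fun Z hZ => (du_con r' h.2.2.1 hZ).symm)
    (fun Z hZ => (du_con r h.2.2.1 hZ).symm)

lemma Ser.conn {E : Finset α} {r r' : Finset α → ℤ} (hP : Persp r r') {x y : α}
    (h : Ser E r' x y) (hc : Conn E r r') : Conn (E.erase y) (con r y) (con r' y) := by
  have hp := h.du
  have h1 := hp.conn (hP.du E) (hc.du hP)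
  exact (conn_del_du hP h.2.2.1).1 h1

lemma Ser.conn_of {E : Finset α} {r r' : Finset α → ℤ} (hP : Persp r r') {x y : α}
    (h : Ser E r' x y) (hc : Conn (E.erase y) (con r y) (con r' y)) : Conn E r r' := by
  have hp := h.du
  have h1 := hp.conn_of (hP.du E) ((conn_del_du hP h.2.2.1).2 hc)
  exact Conn.of_du hP h1

/-! ### The base families -/

lemma Cyc.conn {E : Finset α} {r r' : Finset α → ℤ} (h : Cyc E r r') : Conn E r r' := by
  obtain ⟨h1, h2, h3, h4⟩ := h
  refine ⟨Finset.card_pos.1 (by omega), ?_⟩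
  intro A hA hAne
  by_contra hAE
  have hAs := hA.sub
  have s1 := hA.sep
  have hA1 : A ⊂ E := Finset.ssubset_iff_subset_ne.2 ⟨hAs, hAE⟩
  have hA2 : E \ A ⊂ E := Finset.ssubset_iff_subset_ne.2 ⟨Finset.sdiff_subset, by
    intro h
    obtain ⟨a, ha⟩ := hAne
    have h1 := hAs ha
    rw [← h] at h1
    simp [ha] at h1⟩
  rw [h3 A hA1, h3 _ hA2, h2, Finset.card_sdiff_of_subset hAs] at s1
  push_cast [Finset.card_le_card hAs] at s1
  linarith

lemma Cyc.T {E : Finset α} {r r' : Finset α → ℤ} (hP : Persp r r') (h : Cyc E r r') :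
    T E r r' = 2 ^ E.card - 2 := by
  obtain ⟨h1, h2, h3, h4⟩ := h
  have hE : E ∈ E.powerset := Finset.mem_powerset.2 subset_rfl
  have key : ∀ X ∈ E.powerset.erase E, sg (r' E + r' X + X.card + r X) = 1 := by
    intro X hX
    rw [Finset.mem_erase, Finset.mem_powerset] at hX
    have h5 := h3 X (Finset.ssubset_iff_subset_ne.2 ⟨hX.2, hX.1⟩)
    have h6 : r' X = 0 := by
      have a1 := hP.rk'.mono X E hX.2
      have a2 := hP.rk'.nonneg X
      linarith
    rw [h4, h5, h6, ← sg_two_mul X.card]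
    congr 1
    ring
  unfold MP_321d0a_co.T
  rw [← Finset.add_sum_erase _ _ hE, Finset.sum_congr rfl key]
  have h7 : sg (r' E + r' E + E.card + r E) = -1 := by
    rw [h4, h2, ← sg_one]
    exact sg_eq (E.card - 1) (by ring)
  rw [h7]
  simp only [Finset.sum_const, nsmul_eq_mul, mul_one]
  rw [Finset.card_erase_of_mem hE, Finset.card_powerset]
  have : 1 ≤ 2 ^ E.card := Nat.one_le_two_pow
  push_cast [this]
  ring

lemma Star.conn {E : Finset α} {r r' : Finset α → ℤ} (hP : Persp r r') (h : Star E r r') :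
    Conn E r r' := Conn.of_du hP (h.du hP).conn

lemma Star.T {E : Finset α} {r r' : Finset α → ℤ} (hP : Persp r r') (h : Star E r r') :
    T E r r' = 2 ^ E.card - 2 := by
  rw [← T_du hP]
  exact (h.du hP).T (hP.du E)

end Pool.Agent.H.MP_321d0a_co
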