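import Pool.Agent.H.MP_321d0a_co.Claims

/-!
# The uncrossing claims
-/

namespace Pool.Agent.H.MP_321d0a_co

open Finset

variable {α : Type*} [DecidableEq α]

lemma Conn.contra {E A : Finset α} {r r' : Finset α → ℤ} (hP : Persp r r')
    (hc : Conn E r r') (hA : A ⊆ E) (hne : A.Nonempty) (hne2 : (E \ A).Nonempty)
    (h1 : r A + r (E \ A) ≤ r E) (h1' : r' A + r' (E \ A) ≤ r' E) : False := by
  have h2 := hP.rk.su (U := E) A (E \ A) (by grind)
  have h2' := hP.rk'.su (U := E) A (E \ A) (by grind)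
  have h3 := hc.fac A ⟨hA, by linarith, by linarith⟩ hne
  rw [h3] at hne2
  simp at hne2

lemma exists_fac {E : Finset α} {r r' : Finset α → ℤ} (hne : E.Nonempty)
    (hc : ¬ Conn E r r') : ∃ A, Fac E r r' A ∧ A.Nonempty ∧ (E \ A).Nonempty := by
  by_contra hcon
  apply hc
  refine ⟨hne, fun A hA hAne => ?_⟩
  by_contra hAE
  apply hcon
  refine ⟨A, hA, hAne, ?_⟩
  rw [Finset.sdiff_nonempty]
  intro h
  exact hAE (Finset.Subset.antisymm hA.sub h)

lemma Conn.no_loop {E : Finset α} {r r' : Finset α → ℤ} (hP : Persp r r')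
    (hc : Conn E r r') {e : α} (he : e ∈ E) (hne : (E.erase e).Nonempty) : r {e} = 1 := by
  have h1 := hP.rk.singleton_le e
  have h0 := hP.rk.nonneg {e}
  by_contra hcon
  have h2 : r {e} = 0 := by omega
  have h0' := hP.rk'.nonneg {e}
  have hd := hP.d_nonneg {e}
  have e1 : E \ {e} = E.erase e := by grind
  refine hc.contra hP (A := {e}) (by simpa using he) (by simp) (by rwa [e1]) ?_ ?_
  · have := hP.rk.mono (E \ {e}) E (by grind)
    linarith
  · have := hP.rk'.mono (E \ {e}) E (by grind)
    linarith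

lemma Conn.no_coloop {E : Finset α} {r r' : Finset α → ℤ} (hP : Persp r r')
    (hc : Conn E r r') {e : α} (he : e ∈ E) (hne : (E.erase e).Nonempty) :
    r' (E.erase e) = r' E := by
  have e1 : E \ {e} = E.erase e := by grind
  have e2 : insert e (E.erase e) = E := Finset.insert_erase he
  have h1 := hP.rk'.unit (E.erase e) e
  rw [e2] at h1
  have h2 := hP.rk'.mono (E.erase e) E (by grind)
  by_contra hcon
  have h3 : r' (E.erase e) = r' E - 1 := by omega
  have h4 := hP.le (E.erase e) E (by grind)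
  have h5 := hP.rk.singleton_le e
  have h6 := hP.rk'.singleton_le e
  refine hc.contra hP (A := {e}) (by simpa using he) (by simp) (by rwa [e1]) ?_ ?_
  · rw [e1]; linarith
  · rw [e1]; linarith

lemma Conn.not_both {E : Finset α} {r r' : Finset α → ℤ} (hP : Persp r r')
    (hc : Conn E r r') {e : α} (he : e ∈ E) (hne : (E.erase e).Nonempty)
    (ha : r (E.erase e) = r E - 1) : r' {e} = 1 := by
  have e1 : E \ {e} = E.erase e := by grind
  have h1 := hP.rk'.singleton_le e
  have h0 := hP.rk'.nonneg {e}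
  by_contra hcon
  have h3 : r' {e} = 0 := by omega
  have h5 := hP.rk.singleton_le e
  refine hc.contra hP (A := {e}) (by simpa using he) (by simp) (by rwa [e1]) ?_ ?_
  · rw [e1]; linarith
  · rw [e1]
    have := hP.rk'.mono (E.erase e) E (by grind)
    linarith

/-- Uncrossing a separation of the deletion with a separation of the contraction. -/
lemma uncross {ρ : Finset α → ℤ} (h : IsRk ρ) {E A C : Finset α} {e : α} (he : e ∈ E)
    (hA : A ⊆ E.erase e) (hC : C ⊆ E.erase e) :
    (ρ (A ∩ C) + ρ (E \ (A ∩ C))) +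
      (ρ ((E.erase e \ A) ∩ (E.erase e \ C)) + ρ (E \ ((E.erase e \ A) ∩ (E.erase e \ C)))) ≤
    ρ A + ρ (E.erase e \ A) + ρ (insert e C) + ρ (insert e (E.erase e \ C)) := by
  have h1 := h.sm (U := E \ ((E.erase e \ A) ∩ (E.erase e \ C))) (I := A ∩ C)
    A (insert e C) (by grind) (by grind)
  have h2 := h.sm (U := E \ (A ∩ C)) (I := (E.erase e \ A) ∩ (E.erase e \ C))
    (E.erase e \ A) (insert e (E.erase e \ C)) (by grind) (by grind)
  linarith

lemma claimU {E : Finset α} {r r' : Finset α → ℤ} (hP : Persp r r')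
    (hc : Conn E r r') {e : α} (he : e ∈ E) (hne : (E.erase e).Nonempty)
    (h : r {e} + r (E.erase e) + r' {e} + r' (E.erase e) ≤ r E + r' E + 1) :
    Conn (E.erase e) r r' ∨ Conn (E.erase e) (con r e) (con r' e) := by
  by_contra hcon
  have hn1 : ¬ Conn (E.erase e) r r' := fun h => hcon (Or.inl h)
  have hn2 : ¬ Conn (E.erase e) (con r e) (con r' e) := fun h => hcon (Or.inr h)
  obtain ⟨A, hA, hAne, hBne⟩ := exists_fac hne hn1
  obtain ⟨C, hC, hCne, hDne⟩ := exists_fac hne hn2
  have e2 : insert e (E.erase e) = E := Finset.insert_erase he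
  have hAs := hA.sub
  have hCs := hC.sub
  have hCsep := hC.sep
  have hCsep' := hC.sep'
  simp only [con, e2] at hCsep hCsep'
  have hAsep := hA.sep
  have hAsep' := hA.sep'
  -- the basic inequality
  have key : ∀ Z : Finset α, Z ⊆ E.erase e → Z.Nonempty →
      r E + r' E + 1 ≤ r Z + r (E \ Z) + (r' Z + r' (E \ Z)) := by
    intro Z hZ hZne
    by_contra hlt
    have s1 := hP.rk.su (U := E) Z (E \ Z) (by grind)
    have s1' := hP.rk'.su (U := E) Z (E \ Z) (by grind)
    refine hc.contra hP (A := Z) (by grind) hZne ⟨e, by grind⟩ (by omega) (by omega)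
  have key0 : ∀ Z : Finset α, Z ⊆ E.erase e →
      r E + r' E ≤ r Z + r (E \ Z) + (r' Z + r' (E \ Z)) := by
    intro Z hZ
    have s1 := hP.rk.su (U := E) Z (E \ Z) (by grind)
    have s1' := hP.rk'.su (U := E) Z (E \ Z) (by grind)
    linarith
  have hDsub : E.erase e \ C ⊆ E.erase e := Finset.sdiff_subset
  have u1 := uncross hP.rk he hAs hCs
  have u1' := uncross hP.rk' he hAs hCs
  have u2 := uncross hP.rk he hAs hDsub
  have u2' := uncross hP.rk' he hAs hDsub
  have e3 : E.erase e \ (E.erase e \ C) = C := by grind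
  rw [e3] at u2 u2'
  have hBsub : E.erase e \ A ⊆ E.erase e := Finset.sdiff_subset
  have k1 := key0 (A ∩ C) (by grind)
  have k2 := key0 ((E.erase e \ A) ∩ (E.erase e \ C)) (by grind)
  have k3 := key0 (A ∩ (E.erase e \ C)) (by grind)
  have k4 := key0 ((E.erase e \ A) ∩ C) (by grind)
  -- one of the first pair is empty
  have c1 : A ∩ C = ∅ ∨ (E.erase e \ A) ∩ (E.erase e \ C) = ∅ := by
    by_contra hc1
    rw [not_or, ← Ne.eq_def, ← Ne.eq_def, ← Finset.nonempty_iff_ne_empty,
      ← Finset.nonempty_iff_ne_empty] at hc1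
    have k5 := key _ (by grind) hc1.1
    have k6 := key _ (by grind) hc1.2
    linarith
  have c2 : A ∩ (E.erase e \ C) = ∅ ∨ (E.erase e \ A) ∩ C = ∅ := by
    by_contra hc1
    rw [not_or, ← Ne.eq_def, ← Ne.eq_def, ← Finset.nonempty_iff_ne_empty,
      ← Finset.nonempty_iff_ne_empty] at hc1
    have k5 := key _ (by grind) hc1.1
    have k6 := key _ (by grind) hc1.2
    linarith
  obtain ⟨a, ha⟩ := hAne
  obtain ⟨b, hb⟩ := hBne
  obtain ⟨c, hc⟩ := hCne
  obtain ⟨d, hd⟩ := hDne
  have ha' := hAs ha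
  have hc' := hCs hc
  have hb' := hBsub hb
  have hd' := hDsub hd
  rcases c1 with c1 | c1 <;> rcases c2 with c2 | c2
  · have t1 : a ∉ A ∩ C := by rw [c1]; simp
    have t2 : a ∉ A ∩ (E.erase e \ C) := by rw [c2]; simp
    grind
  · have t1 : c ∉ A ∩ C := by rw [c1]; simp
    have t2 : c ∉ (E.erase e \ A) ∩ C := by rw [c2]; simp
    grind
  · have t1 : d ∉ (E.erase e \ A) ∩ (E.erase e \ C) := by rw [c1]; simp
    have t2 : d ∉ A ∩ (E.erase e \ C) := by rw [c2]; simp
    grind
  · have t1 : b ∉ (E.erase e \ A) ∩ (E.erase e \ C) := by rw [c1]; simp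
    have t2 : b ∉ (E.erase e \ A) ∩ C := by rw [c2]; simp
    grind

/-- `e` an isthmus of `M`: the contraction has no zero factor. -/
lemma claimZ2 {E : Finset α} {r r' : Finset α → ℤ} (hP : Persp r r')
    (hc : Conn E r r') {e : α} (he : e ∈ E) (hne : (E.erase e).Nonempty)
    (ha : r (E.erase e) = r E - 1) : NoZero (E.erase e) (con r e) (con r' e) := by
  intro X hX hXne h0
  have e2 : insert e (E.erase e) = E := Finset.insert_erase he
  have hXs := hX.sub
  have hs := hX.sep
  have hs' := hX.sep'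
  have hb := hc.not_both hP he hne ha
  have ha1 := hc.no_loop hP he hne
  simp only [con, e2] at hs hs' h0
  -- agreement on subsets of `X ∪ e`
  have hd : r X - r' X ≤ 0 := by
    have := hP.d_mono (X := X) (Y := insert e X) (by grind)
    linarith
  have hd0 := hP.d_nonneg X
  have m1 := hP.rk.sm (U := E) (I := X) (insert e X) (E.erase e) (by grind) (by grind)
  have e3 : E \ X = insert e (E.erase e \ X) := by grind
  have s1' := hP.rk'.su (U := E) X (insert e (E.erase e \ X)) (by grind)
  refine hc.contra hP (A := X) (by grind) hXne ⟨e, by grind⟩ ?_ ?_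
  · rw [e3]; linarith
  · rw [e3]; linarith

/-- `e` a loop of `M'`, not an isthmus of `M`: the deletion has no zero factor. -/
lemma claimZ3 {E : Finset α} {r r' : Finset α → ℤ} (hP : Persp r r')
    (hc : Conn E r r') {e : α} (he : e ∈ E) (hne : (E.erase e).Nonempty)
    (hb : r' {e} = 0) : NoZero (E.erase e) r r' := by
  intro X hX hXne h0
  have hXs := hX.sub
  have hs := hX.sep
  have hs' := hX.sep'
  have hc1 := hc.no_coloop hP he hne
  have e3 : E \ X = insert e (E.erase e \ X) := by grind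
  have d1 := hP.d_mono (X := insert e (E.erase e \ X)) (Y := E) (by grind)
  have s1 := hP.rk'.su (U := insert e (E.erase e \ X)) {e} (E.erase e \ X) (by grind)
  refine hc.contra hP (A := X) (by grind) hXne ⟨e, by grind⟩ ?_ ?_
  · rw [e3]; linarith
  · rw [e3]; linarith

end Pool.Agent.H.MP_321d0a_co
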